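import Mathlib

/-!
# `C_p`-theory: the function space, g-spaces and Grothendieck spaces

Definitions used by the hand-ins for the Grothendieck property.
-/

open Set Filter Topology

namespace Helper88.CpTheory

universe u

/-- `C_p(Y)`: the set of continuous functions `Y → ℝ` with the topology of pointwise convergence,
i.e. the subspace topology from the product space `ℝ^Y`. -/
def Cp (Y : Type u) [TopologicalSpace Y] : Type u := {f : Y → ℝ // Continuous f}

/-- The topology of pointwise convergence: induced by `C_p(Y) ⊆ ℝ^Y` from the product topology. -/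
instance instTopCp (Y : Type u) [TopologicalSpace Y] : TopologicalSpace (Cp Y) :=
  TopologicalSpace.induced (fun f : Cp Y => (f.1 : Y → ℝ)) Pi.topologicalSpace

instance instT2Cp (Y : Type u) [TopologicalSpace Y] : T2Space (Cp Y) :=
  inferInstanceAs (T2Space {f : Y → ℝ // Continuous f})

/-- `A ⊆ Z` is countably compact in `Z`: every infinite subset of `A` has an accumulation point
in `Z`. -/
def CountablyCompactIn {Z : Type u} [TopologicalSpace Z] (A : Set Z) : Prop :=
  ∀ B : Set Z, B ⊆ A → B.Infinite → ∃ z : Z, AccPt z (𝓟 B)

/-- `Z` is a g-space: the closure in `Z` of every subset that is countably compact in `Z` is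
compact. -/
def IsGSpace (Z : Type u) [TopologicalSpace Z] : Prop :=
  ∀ A : Set Z, CountablyCompactIn A → IsCompact (closure A)

/-- `X` is Grothendieck: every subspace of `C_p(X)` is a g-space. -/
def IsGrothendieck (X : Type u) [TopologicalSpace X] : Prop :=
  ∀ Z : Set (Cp X), IsGSpace Z

/-- `X` is hereditarily Grothendieck: every subspace of `X` is Grothendieck. -/
def IsHereditarilyGrothendieck (X : Type u) [TopologicalSpace X] : Prop :=
  ∀ Y : Set X, IsGrothendieck Y

/-- The bounding number `𝔟`: the least cardinality of a set of functions `ℕ → ℕ` that is not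
bounded with respect to eventual domination. -/
noncomputable def boundingNumber : Cardinal.{0} :=
  sInf {κ | ∃ S : Set (ℕ → ℕ), Cardinal.mk S = κ ∧
    ¬ ∃ g : ℕ → ℕ, ∀ f ∈ S, ∀ᶠ n in atTop, f n ≤ g n}

end Helper88.CpTheory
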