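import Mathlib

/-!
# Suslin trees
-/

namespace Helper88.SuslinTree

/-- A Suslin tree: a partially ordered set `T` in which the set of predecessors of every node is
well-ordered, which is uncountable, and all of whose chains and antichains are countable. -/
structure IsSuslinTree (T : Type) [PartialOrder T] : Prop where
  /-- the predecessors of a node form a well-ordered chain -/
  predecessors : ∀ t : T, IsChain (· ≤ ·) (Set.Iio t) ∧ (Set.Iio t).IsWF
  /-- there are uncountably many nodes -/
  uncountable : ¬ (Set.univ : Set T).Countable
  /-- every chain is countable -/
  countable_chain : ∀ C : Set T, IsChain (· ≤ ·) C → C.Countable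
  /-- every antichain is countable -/
  countable_antichain : ∀ A : Set T, IsAntichain (· ≤ ·) A → A.Countable

/-- A normalized Suslin tree: moreover it has a least node, every node has infinitely many immediate
successors, and a node of limit type is determined by its predecessors. -/
structure IsNormalSuslinTree (T : Type) [PartialOrder T] : Prop where
  predecessors : ∀ t : T, IsChain (· ≤ ·) (Set.Iio t) ∧ (Set.Iio t).IsWF
  exists_least : ∃ r : T, ∀ t : T, r ≤ t
  infinite_succ : ∀ t : T, {u : T | t ⋖ u}.Infinite
  limit_unique : ∀ t u : T, Set.Iio t = Set.Iio u →
    (∀ s < t, ∃ s', s < s' ∧ s' < t) → t = u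
  uncountable : ¬ (Set.univ : Set T).Countable
  countable_chain : ∀ C : Set T, IsChain (· ≤ ·) C → C.Countable
  countable_antichain : ∀ A : Set T, IsAntichain (· ≤ ·) A → A.Countable

end Helper88.SuslinTree
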