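import Mathlib
import Pool.Agent.Lib.Helper88.CpDefs

/-!
# Pointwise compactness over hereditarily Lindelöf first countable spaces
-/

open Set Filter Topology

namespace Helper88.CpTheory

section Stable

theorem stable_exists {Y : Type*} [TopologicalSpace Y] [HereditarilyLindelofSpace Y]
    {P : Type*} [Preorder P] (hP : ∀ u : ℕ → P, Monotone u → ∃ b, ∀ n, u n ≤ b)
    (Φ : P → Set Y) (hΦ : Monotone Φ) (hopen : ∀ p, IsOpen (Φ p)) (p0 : P) :
    ∃ p, p0 ≤ p ∧ ∀ q, p ≤ q → Φ q = Φ p := by
  classical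
  let r : {q : P // p0 ≤ q} → {q : P // p0 ≤ q} → Prop := fun a b => a = b ∨ (a ≤ b ∧ Φ a ⊂ Φ b)
  have htrans : ∀ {a b c}, r a b → r b c → r a c := by
    intro a b c hab hbc
    rcases hab with rfl | ⟨h1, h2⟩
    · exact hbc
    rcases hbc with rfl | ⟨h3, h4⟩
    · exact Or.inr ⟨h1, h2⟩
    · exact Or.inr ⟨h1.trans h3, h2.trans h4⟩
  have hrle : ∀ {a b}, r a b → a ≤ b := by
    intro a b h
    rcases h with rfl | h
    · exact le_rfl
    · exact h.1
  obtain ⟨m, hm⟩ := exists_maximal_of_chains_bounded (r := r) (by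
    intro c hc
    -- if c has a greatest element
    by_cases hgr : ∃ a ∈ c, ∀ b ∈ c, r b a
    · obtain ⟨a, _, ha⟩ := hgr
      exact ⟨a, ha⟩
    push Not at hgr
    rcases c.eq_empty_or_nonempty with rfl | hne
    · exact ⟨⟨p0, le_rfl⟩, by simp⟩
    have hne' : Nonempty c := hne.to_subtype
    obtain ⟨f, hf⟩ := eq_open_union_nat (fun a : c => Φ a.1.1) (fun a => hopen _)
    -- every element of c is r-below some f n
    have hcof : ∀ a ∈ c, ∃ n, r a (f n).1 := by
      intro a ha
      by_contra hno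
      push Not at hno
      obtain ⟨b, hb, hba⟩ := hgr a ha
      -- b not r a
      have hfa : ∀ n, r (f n).1 a := by
        intro n
        by_cases heq : a = (f n).1
        · exact (hno n (Or.inl heq)).elim
        · rcases hc ha (f n).2 heq with h | h
          · exact (hno n h).elim
          · exact h
      have hsub : (⋃ i : c, Φ i.1.1) ⊆ Φ a := by
        rw [← hf]
        apply iUnion_subset
        intro n
        exact hΦ (hrle (hfa n))
      have hab : a ≠ b := by
        rintro rfl
        exact hba (Or.inl rfl)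
      rcases hc ha hb hab with h | h
      · rcases h with h | h
        · exact hab h
        · apply h.2.2
          exact (subset_iUnion (fun i : c => Φ i.1.1) ⟨b, hb⟩).trans hsub
      · exact hba h
    -- build an increasing sequence dominating f
    have hmax : ∀ a b : c, ∃ d : c, r a.1 d.1 ∧ r b.1 d.1 := by
      intro a b
      by_cases heq : a = b
      · subst heq
        exact ⟨a, Or.inl rfl, Or.inl rfl⟩
      · rcases hc a.2 b.2 (fun h => heq (Subtype.ext h)) with h | h
        · exact ⟨b, h, Or.inl rfl⟩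
        · exact ⟨a, Or.inl rfl, h⟩
    choose mx hmx1 hmx2 using hmax
    let g : ℕ → c := fun n => Nat.rec (f 0) (fun n gn => mx gn (f (n+1))) n
    have hg : ∀ n, g (n+1) = mx (g n) (f (n+1)) := fun n => rfl
    have hgmono : Monotone (fun n => ((g n).1.1 : P)) := by
      apply monotone_nat_of_le_succ
      intro n
      rw [hg]
      exact hrle (hmx1 _ _)
    have hfg : ∀ n, r (f n).1 (g n).1 := by
      intro n
      cases n with
      | zero => exact Or.inl rfl
      | succ n => rw [hg]; exact hmx2 _ _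
    obtain ⟨b, hb⟩ := hP _ hgmono
    refine ⟨⟨b, (g 0).1.2.trans (hb 0)⟩, ?_⟩
    intro a ha
    obtain ⟨n, hn⟩ := hcof a ha
    -- strictly bigger element
    obtain ⟨a', ha', haa'⟩ := hgr a ha
    have hne : a ≠ a' := by
      rintro rfl
      exact haa' (Or.inl rfl)
    have hr' : r a a' := by
      rcases hc ha ha' hne with h | h
      · exact h
      · exact (haa' h).elim
    obtain ⟨n', hn'⟩ := hcof a' ha'
    right
    constructor
    · show a.1 ≤ b
      have h0 : a.1 ≤ (g n).1.1 := hrle (htrans hn (hfg n))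
      exact h0.trans (hb n)
    · rcases hr' with h | h
      · exact (hne h).elim
      · refine lt_of_lt_of_le h.2 ?_
        have h0 : a'.1 ≤ (g n').1.1 := hrle (htrans hn' (hfg n'))
        exact hΦ (h0.trans (hb n'))) htrans
  refine ⟨m.1, m.2, fun q hq => ?_⟩
  by_contra hne
  have hss : Φ m.1 ⊂ Φ q := lt_of_le_of_ne (hΦ hq) (fun h => hne h.symm)
  have h1 := hm ⟨q, m.2.trans hq⟩ (Or.inr ⟨hq, hss⟩)
  rcases h1 with h1 | h1
  · apply hne
    rw [← h1]
  · exact hss.2 h1.2.1

end Stable

section CC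

variable {Y : Type*} [TopologicalSpace Y]

/-- every sequence of `A` has a cluster point in `B` (along some ultrafilter). -/
def CCin (A B : Set (Y → ℝ)) : Prop :=
  ∀ f : ℕ → Y → ℝ, (∀ n, f n ∈ A) → ∃ g ∈ B, ∃ U : Ultrafilter ℕ, (U : Filter ℕ) ≤ atTop ∧
    ∀ y, Tendsto (fun n => f n y) U (𝓝 (g y))

omit [TopologicalSpace Y] in
theorem approx_seq {A B : Set (Y → ℝ)} (h : CCin A B) {g : Y → ℝ} (hg : g ∈ closure A) 
    (s : ℕ → Y) : ∃ f ∈ B, ∀ n, f (s n) = g (s n) := by
  have hch : ∀ n : ℕ, ∃ f ∈ A, ∀ k ≤ n, |f (s k) - g (s k)| < 1 / ((n : ℝ) + 1) := by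
    intro n
    rw [mem_closure_iff] at hg
    have hopen : IsOpen (⋂ k ∈ Finset.range (n+1), {f : Y → ℝ | |f (s k) - g (s k)| < 1 / ((n : ℝ) + 1)}) := by
      apply isOpen_biInter_finset
      intro k _
      exact isOpen_lt (((continuous_apply (s k)).sub continuous_const).abs) continuous_const
    obtain ⟨f, hf1, hf2⟩ := hg _ hopen (by
      simp only [mem_iInter, mem_ofPred_eq, sub_self, abs_zero]
      intro k _
      positivity)
    refine ⟨f, hf2, fun k hk => ?_⟩
    simp only [mem_iInter, mem_ofPred_eq] at hf1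
    exact hf1 k (Finset.mem_range.2 (by omega))
  choose f hf1 hf2 using hch
  obtain ⟨f', hf', U, hU, hlim⟩ := h f hf1
  refine ⟨f', hf', fun k => ?_⟩
  have h1 : Tendsto (fun n => f n (s k)) U (𝓝 (g (s k))) := by
    have h2 : Tendsto (fun n => f n (s k) - g (s k)) atTop (𝓝 0) := by
      rw [tendsto_zero_iff_abs_tendsto_zero]
      apply squeeze_zero' (g := fun n : ℕ => 1 / ((n : ℝ) + 1))
      · exact Eventually.of_forall fun n => abs_nonneg _
      · filter_upwards [eventually_ge_atTop k] with n hn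
        exact (hf2 n k hn).le
      · exact tendsto_one_div_add_atTop_nhds_zero_nat
    have h3 := (h2.mono_left hU).add_const (g (s k))
    simpa using h3
  exact tendsto_nhds_unique (hlim (s k)) h1

theorem continuous_of_closure [FirstCountableTopology Y] {A B : Set (Y → ℝ)} (h : CCin A B)
    (hB : ∀ f ∈ B, Continuous f) {g : Y → ℝ} (hg : g ∈ closure A) : Continuous g := by
  rw [continuous_iff_continuousAt]
  intro y
  by_contra hcon
  rw [ContinuousAt, Filter.tendsto_iff_seq_tendsto] at hcon
  push Not at hcon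
  obtain ⟨x, hx, hx'⟩ := hcon
  obtain ⟨f, hf, hfs⟩ := approx_seq h hg (fun n => Nat.casesOn n y (fun k => x k))
  apply hx'
  have h1 : Tendsto (fun n => f (x n)) atTop (𝓝 (f y)) := ((hB f hf).tendsto y).comp hx
  have h2 : f y = g y := hfs 0
  have h3 : ∀ n, f (x n) = g (x n) := fun n => hfs (n+1)
  rw [← h2]
  refine h1.congr (fun n => ?_)
  rw [h3]
  rfl

omit [TopologicalSpace Y] in
theorem bounded_of_CCin {A B : Set (Y → ℝ)} (h : CCin A B) (y : Y) :
    ∃ M : ℝ, ∀ f ∈ A, |f y| ≤ M := by
  by_contra hcon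
  push Not at hcon
  choose f hf1 hf2 using fun n : ℕ => hcon n
  obtain ⟨g, _, U, hU, hlim⟩ := h f hf1
  have h1 := (hlim y).abs
  have h2 : Tendsto (fun n => |f n y|) U atTop := by
    have : Tendsto (fun n : ℕ => (n : ℝ)) U atTop := tendsto_natCast_atTop_atTop.mono_left hU
    exact tendsto_atTop_mono (fun n => (hf2 n).le) this
  exact not_tendsto_nhds_of_tendsto_atTop h2 _ h1

omit [TopologicalSpace Y] in
theorem isCompact_closure_of_CCin {A B : Set (Y → ℝ)} (h : CCin A B) : IsCompact (closure A) := by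
  choose M hM using bounded_of_CCin h
  have hcomp : IsCompact (Set.univ.pi (fun y => Set.Icc (-(M y)) (M y))) :=
    isCompact_univ_pi (fun y => isCompact_Icc)
  apply hcomp.of_isClosed_subset isClosed_closure
  apply closure_minimal _ (isClosed_set_pi (fun y _ => isClosed_Icc))
  intro f hf y _
  exact abs_le.1 (hM y f hf)

/-- The key closedness theorem. -/
theorem mem_of_mem_closure [FirstCountableTopology Y] [HereditarilyLindelofSpace Y]
    {B : Set (Y → ℝ)} (h : CCin B B)
    (hB : ∀ f ∈ B, Continuous f) {g : Y → ℝ} (hg : g ∈ closure B) : g ∈ B := by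
  have hgc : Continuous g := continuous_of_closure h hB hg
  -- good sets
  let Good : ℝ → Set Y → Prop := fun ε V => 
    ∀ s : ℕ → Y, ∃ f ∈ B, (∀ y ∈ V, |f y - g y| ≤ ε) ∧ ∀ n, f (s n) = g (s n)
  have hgood : ∀ ε : ℝ, 0 < ε → Good ε Set.univ := by
    intro ε hε
    let P : Type _ := {V : Set Y // IsOpen V ∧ Good ε V}
    obtain ⟨⟨V, hVo, hV⟩, -, hmax⟩ := stable_exists (P := P) (Y := Y) (by
      intro u hu
      refine ⟨⟨⋃ n, (u n).1, isOpen_iUnion fun n => (u n).2.1, ?_⟩, fun n => ?_⟩
      · intro s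
        choose f hf1 hf2 hf3 using fun n => (u n).2.2 s
        obtain ⟨f', hf', U, hU, hlim⟩ := h f hf1
        refine ⟨f', hf', ?_, ?_⟩
        · intro y hy
          obtain ⟨m, hm⟩ := mem_iUnion.1 hy
          have h1 : Tendsto (fun n => |f n y - g y|) U (𝓝 |f' y - g y|) :=
            ((hlim y).sub_const _).abs
          apply le_of_tendsto h1
          apply hU
          filter_upwards [eventually_ge_atTop m] with n hn
          exact hf2 n y (hu hn hm)
        · intro k
          have h1 : Tendsto (fun n => f n (s k)) U (𝓝 (g (s k))) := by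
            apply tendsto_nhds_of_eventually_eq
            exact Eventually.of_forall fun n => hf3 n k
          exact tendsto_nhds_unique (hlim (s k)) h1
      · exact subset_iUnion (fun n => (u n).1) n) (fun V => V.1) (fun _ _ hab => hab)
      (fun V => V.2.1) ⟨∅, isOpen_empty, by
        intro s
        obtain ⟨f, hf, hfs⟩ := approx_seq h hg s
        exact ⟨f, hf, by simp, hfs⟩⟩
    -- V = univ
    have hVuniv : V = Set.univ := by
      by_contra hne
      obtain ⟨y0, hy0⟩ := (Set.ne_univ_iff_exists_notMem V).1 hne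
      obtain ⟨O, hO⟩ := (𝓝 y0).exists_antitone_basis
      have hbad : ∀ k, ∃ s : ℕ → Y, ∀ f ∈ B, (∀ n, f (s n) = g (s n)) → 
          ∃ y ∈ V ∪ interior (O k), ε < |f y - g y| := by
        intro k
        by_contra hno
        push Not at hno
        have hG : Good ε (V ∪ interior (O k)) := by
          intro s
          obtain ⟨f, hf, hfs, hfy⟩ := hno s
          exact ⟨f, hf, hfy, hfs⟩
        have := hmax ⟨V ∪ interior (O k), hVo.union isOpen_interior, hG⟩ subset_union_left
        dsimp only at this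
        apply hy0
        rw [← this]
        exact Or.inr (mem_interior_iff_mem_nhds.2 (hO.mem k))
      choose s hs using hbad
      let e : ℕ ≃ ℕ × ℕ := (Nat.pairEquiv).symm
      obtain ⟨f, hf, hfV, hfs⟩ := hV (fun n => Nat.casesOn n y0 (fun k => s (e k).1 (e k).2))
      have hfs' : ∀ k n, f (s k n) = g (s k n) := by
        intro k n
        have := hfs (e.symm (k, n) + 1)
        simpa using this
      have hf0 : f y0 = g y0 := hfs 0
      choose y hy1 hy2 using fun k => hs k f hf (hfs' k)
      have hyO : ∀ k, y k ∈ O k := by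
        intro k
        rcases hy1 k with h1 | h1
        · exact absurd (hfV _ h1) (not_le.2 (hy2 k))
        · exact interior_subset h1
      have hlim : Tendsto y atTop (𝓝 y0) := hO.tendsto hyO
      have h1 : Tendsto (fun k => |f (y k) - g (y k)|) atTop (𝓝 |f y0 - g y0|) := by
        have := (((hB f hf).sub hgc).abs.tendsto y0).comp hlim
        exact this
      rw [hf0, sub_self, abs_zero] at h1
      have h2 : ε ≤ 0 := ge_of_tendsto h1 (Eventually.of_forall fun k => (hy2 k).le)
      exact absurd hε (not_lt.2 h2)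
    rw [← hVuniv]
    exact hV
  -- now uniform approximations
  rcases isEmpty_or_nonempty Y with hY | hY
  · obtain ⟨f, hf⟩ : B.Nonempty := by
      have : (closure B).Nonempty := ⟨g, hg⟩
      exact closure_nonempty_iff.1 this
    have : f = g := funext fun y => (hY.false y).elim
    rwa [← this]
  choose f hf1 hf2 hf3 using fun n : ℕ => hgood (1 / ((n : ℝ) + 1)) (by positivity) 
    (fun _ => Classical.arbitrary Y)
  obtain ⟨f', hf', U, hU, hlim⟩ := h f hf1
  have : f' = g := by
    funext y
    have h2 : Tendsto (fun n => f n y - g y) atTop (𝓝 0) := by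
      rw [tendsto_zero_iff_abs_tendsto_zero]
      apply squeeze_zero' (g := fun n : ℕ => 1 / ((n : ℝ) + 1))
      · exact Eventually.of_forall fun n => abs_nonneg _
      · exact Eventually.of_forall fun n => hf2 n y (mem_univ _)
      · exact tendsto_one_div_add_atTop_nhds_zero_nat
    have h3 := (h2.mono_left hU).add_const (g y)
    simp only [sub_add_cancel, zero_add] at h3
    exact tendsto_nhds_unique (hlim y) h3
  rwa [← this]

end CC

section SeqCompact

/-- infinite sets of naturals, ordered by reverse almost inclusion -/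
structure InfSet : Type where
  /-- the set -/
  carrier : Set ℕ
  /-- it is infinite -/
  inf : carrier.Infinite

instance : Preorder InfSet where
  le J J' := (J'.1 \ J.1).Finite
  le_refl J := by simp
  le_trans J J' J'' h h' := by
    apply (h.union h').subset
    rintro x ⟨hx1, hx2⟩
    by_cases hx3 : x ∈ J'.1
    · exact Or.inl ⟨hx3, hx2⟩
    · exact Or.inr ⟨hx1, hx3⟩

theorem InfSet.le_def (J J' : InfSet) : J ≤ J' ↔ (J'.1 \ J.1).Finite := Iff.rfl

theorem InfSet.of_subset {J J' : InfSet} (h : J'.1 ⊆ J.1) : J ≤ J' := by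
  rw [InfSet.le_def, Set.sdiff_eq_empty.2 h]
  exact Set.finite_empty

theorem InfSet.eventually {J J' : InfSet} (h : J ≤ J') : ∃ N, ∀ n ∈ J'.1, N ≤ n → n ∈ J.1 := by
  rw [InfSet.le_def] at h
  obtain ⟨N, hN⟩ := h.bddAbove
  refine ⟨N + 1, fun n hn hNn => ?_⟩
  by_contra hcon
  have := hN ⟨hn, hcon⟩
  omega

theorem InfSet.exists_upper (u : ℕ → InfSet) (hu : Monotone u) : ∃ b, ∀ n, u n ≤ b := by
  have hch : ∀ n m : ℕ, ∃ x, m < x ∧ ∀ k ≤ n, x ∈ (u k).1 := by
    intro n m
    have : (⋃ k ∈ Finset.range (n+1), ((u n).1 \ (u k).1)).Finite := by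
      apply Set.Finite.biUnion (Finset.finite_toSet _)
      intro k hk
      exact hu (by have := Finset.mem_range.1 (Finset.mem_coe.1 hk); omega)
    obtain ⟨x, hx, hx'⟩ := ((u n).2.sdiff this).exists_gt m
    refine ⟨x, hx', fun k hk => ?_⟩
    by_contra hcon
    apply hx.2
    simp only [mem_iUnion]
    exact ⟨k, Finset.mem_range.2 (by omega), hx.1, hcon⟩
  choose f hf1 hf2 using hch
  let e : ℕ → ℕ := fun n => Nat.rec (f 0 0) (fun n en => f (n+1) en) n
  have he : ∀ n, e (n+1) = f (n+1) (e n) := fun n => rfl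
  have hmono : StrictMono e := strictMono_nat_of_lt_succ (fun n => by rw [he]; exact hf1 _ _)
  have hmem : ∀ n, ∀ k ≤ n, e n ∈ (u k).1 := by
    intro n
    cases n with
    | zero => exact hf2 _ _
    | succ n => rw [he]; exact hf2 _ _
  refine ⟨⟨range e, Set.infinite_range_of_injective hmono.injective⟩, fun n => ?_⟩
  rw [InfSet.le_def]
  apply ((Finset.range n).finite_toSet.image e).subset
  rintro x ⟨⟨m, rfl⟩, hx⟩
  refine ⟨m, ?_, rfl⟩
  by_contra hlt
  simp only [Finset.coe_range, mem_Iio, not_lt] at hlt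
  exact hx (hmem m n hlt)

variable {Y : Type*} [TopologicalSpace Y]

/-- oscillation at most `ε` along `J` -/
def Zset (f : ℕ → Y → ℝ) (ε : ℝ) (J : InfSet) : Set Y :=
  {y | ∃ N, ∀ m ∈ J.1, ∀ n ∈ J.1, N ≤ m → N ≤ n → |f m y - f n y| ≤ ε}

omit [TopologicalSpace Y] in
theorem Zset_mono (f : ℕ → Y → ℝ) (ε : ℝ) : Monotone (Zset f ε) := by
  rintro J J' h y ⟨N, hN⟩
  obtain ⟨N', hN'⟩ := InfSet.eventually h
  refine ⟨max N N', fun m hm n hn hNm hNn => ?_⟩
  exact hN m (hN' m hm (le_of_max_le_right hNm)) n (hN' n hn (le_of_max_le_right hNn))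
    (le_of_max_le_left hNm) (le_of_max_le_left hNn)

theorem exists_osc [FirstCountableTopology Y] [HereditarilyLindelofSpace Y]
    {B : Set (Y → ℝ)} (h : CCin B B) (hB : ∀ f ∈ B, Continuous f) (f : ℕ → Y → ℝ)
    (hf : ∀ n, f n ∈ B) (ε : ℝ) (hε : 0 < ε) (I : InfSet) :
    ∃ J : InfSet, J.1 ⊆ I.1 ∧ ∀ y, y ∈ Zset f ε J := by
  obtain ⟨J0, hIJ0, hstab⟩ := stable_exists (P := InfSet) (Y := Y) InfSet.exists_upper
    (fun J => interior (Zset f ε J)) (fun J J' hJ => interior_mono (Zset_mono f ε hJ))
    (fun J => isOpen_interior) I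
  have key : ∀ y, y ∈ interior (Zset f ε J0) := by
    intro y0
    by_contra hy0
    obtain ⟨O, hO⟩ := (𝓝 y0).exists_antitone_basis
    -- find c 
    obtain ⟨M, hM⟩ := bounded_of_CCin h y0
    have hne : (cofinite ⊓ 𝓟 J0.1).NeBot := Filter.cofinite_inf_principal_neBot_iff.2 J0.2
    let U : Ultrafilter ℕ := Ultrafilter.of (cofinite ⊓ 𝓟 J0.1)
    have hU : (U : Filter ℕ) ≤ cofinite ⊓ 𝓟 J0.1 := Ultrafilter.of_le _
    obtain ⟨c, -, hc⟩ := (isCompact_Icc (a := -M) (b := M)).ultrafilter_le_nhds 
      (U.map (fun n => f n y0)) (by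
        rw [Filter.le_principal_iff]
        show ∀ᶠ n in (U : Filter ℕ), f n y0 ∈ Set.Icc (-M) M
        exact Eventually.of_forall fun n => abs_le.1 (hM _ (hf n)))
    have hc' : Tendsto (fun n => f n y0) U (𝓝 c) := hc
    let J1 : InfSet := ⟨{n | n ∈ J0.1 ∧ |f n y0 - c| < ε / 8}, by
      intro hfin
      have h1 : {n | n ∈ J0.1 ∧ |f n y0 - c| < ε / 8} ∈ (U : Filter ℕ) := by
        have h2 : ∀ᶠ n in (U : Filter ℕ), |f n y0 - c| < ε / 8 := by
          have := hc'.eventually (Metric.ball_mem_nhds c (by positivity : 0 < ε / 8))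
          simpa [Real.dist_eq] using this
        have h3 : J0.1 ∈ (U : Filter ℕ) := hU (mem_inf_of_right (mem_principal_self _))
        filter_upwards [h2, h3] with n h2 h3
        exact ⟨h3, h2⟩
      have h4 : {n | n ∈ J0.1 ∧ |f n y0 - c| < ε / 8}ᶜ ∈ (U : Filter ℕ) := 
        hU (mem_inf_of_left hfin.compl_mem_cofinite)
      have := Filter.inter_mem h1 h4
      rw [Set.inter_compl_self] at this
      exact U.neBot.ne (Filter.empty_mem_iff_bot.1 this)⟩
    have hJ01 : J0 ≤ J1 := InfSet.of_subset (fun n hn => hn.1)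
    -- the step
    have hstep : ∀ (J : {J : InfSet // J0 ≤ J}) (k : ℕ), ∃ J' : {J : InfSet // J0 ≤ J}, J'.1.1 ⊆ J.1.1 ∧ 
        ∃ y ∈ O k, ∀ n ∈ J'.1.1, ε / 2 < |f n y - c| := by
      rintro ⟨J, hJ⟩ k
      have h1 : ¬ (O k ⊆ Zset f ε J) := by
        intro hsub
        apply hy0
        rw [← hstab J hJ]
        exact mem_interior_iff_mem_nhds.2 (Filter.mem_of_superset (hO.mem k) hsub)
      obtain ⟨y, hyO, hyZ⟩ := Set.not_subset.1 h1
      have hinf : {n | n ∈ J.1 ∧ ε / 2 < |f n y - c|}.Infinite := by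
        intro hfin
        apply hyZ
        obtain ⟨N, hN⟩ := hfin.bddAbove
        refine ⟨N + 1, fun m hm n hn hNm hNn => ?_⟩
        have h2 : |f m y - c| ≤ ε / 2 := by
          by_contra hcon
          have := hN ⟨hm, not_le.1 hcon⟩
          omega
        have h3 : |f n y - c| ≤ ε / 2 := by
          by_contra hcon
          have := hN ⟨hn, not_le.1 hcon⟩
          omega
        have h4 : f m y - f n y = (f m y - c) - (f n y - c) := by ring
        rw [h4]
        calc |(f m y - c) - (f n y - c)| ≤ |f m y - c| + |f n y - c| := abs_sub _ _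
          _ ≤ ε := by linarith
      have hsub : {n | n ∈ J.1 ∧ ε / 2 < |f n y - c|} ⊆ J.1 := fun n hn => hn.1
      refine ⟨⟨⟨_, hinf⟩, ?_⟩, hsub, y, hyO, fun n hn => hn.2⟩
      exact hJ.trans (InfSet.of_subset hsub)
    choose nxt hnxt1 y hyO hy using hstep
    let u : ℕ → {J : InfSet // J0 ≤ J} := fun k => Nat.rec ⟨J1, hJ01⟩ (fun k J => nxt J k) k
    have hu : ∀ k, u (k+1) = nxt (u k) k := fun k => rfl
    have hmono : Monotone (fun k => (u k).1) := by
      apply monotone_nat_of_le_succ
      intro k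
      rw [hu]
      exact InfSet.of_subset (hnxt1 _ _)
    obtain ⟨b, hb⟩ := InfSet.exists_upper _ hmono
    -- enumerate b
    let e : ℕ → ℕ := Nat.nth (fun n => n ∈ b.1)
    have hemem : ∀ n, e n ∈ b.1 := fun n => Nat.nth_mem_of_infinite b.2 n
    have hetop : Tendsto e atTop atTop := (Nat.nth_strictMono b.2).tendsto_atTop
    obtain ⟨g, hg, W, hW, hlim⟩ := h (fun n => f (e n)) (fun n => hf _)
    have hev : ∀ k, ∀ᶠ n in (W : Filter ℕ), e n ∈ (u k).1.1 := by
      intro k
      obtain ⟨N, hN⟩ := InfSet.eventually (hb k)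
      apply hW
      filter_upwards [hetop.eventually_ge_atTop N] with n hn
      exact hN _ (hemem n) hn
    have h1 : |g y0 - c| ≤ ε / 8 := by
      have : Tendsto (fun n => |f (e n) y0 - c|) W (𝓝 |g y0 - c|) := ((hlim y0).sub_const _).abs
      apply le_of_tendsto this
      filter_upwards [hev 0] with n hn
      exact hn.2.le
    have h2 : ∀ k, ε / 2 ≤ |g (y (u k) k) - c| := by
      intro k
      have : Tendsto (fun n => |f (e n) (y (u k) k) - c|) W (𝓝 |g (y (u k) k) - c|) := 
        ((hlim _).sub_const _).abs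
      apply ge_of_tendsto this
      filter_upwards [hev (k+1)] with n hn
      exact (hy (u k) k _ hn).le
    have h3 : Tendsto (fun k => y (u k) k) atTop (𝓝 y0) := hO.tendsto (fun k => hyO _ _)
    have h4 : Tendsto (fun k => |g (y (u k) k) - c|) atTop (𝓝 |g y0 - c|) :=
      ((((hB g hg).tendsto y0).comp h3).sub_const _).abs
    have h5 := ge_of_tendsto h4 (Eventually.of_forall h2)
    linarith
  -- intersect with I
  have hinf : (J0.1 ∩ I.1).Infinite := by
    intro hfin
    apply J0.2
    apply (hfin.union ((InfSet.le_def _ _).1 hIJ0)).subset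
    intro x hx
    by_cases hxI : x ∈ I.1
    · exact Or.inl ⟨hx, hxI⟩
    · exact Or.inr ⟨hx, hxI⟩
  refine ⟨⟨J0.1 ∩ I.1, hinf⟩, inter_subset_right, fun y => ?_⟩
  exact Zset_mono f ε (InfSet.of_subset (J := J0) (J' := ⟨J0.1 ∩ I.1, hinf⟩) inter_subset_left) 
    (interior_subset (key y))

theorem exists_subseq [FirstCountableTopology Y] [HereditarilyLindelofSpace Y]
    {B : Set (Y → ℝ)} (h : CCin B B) (hB : ∀ f ∈ B, Continuous f) (f : ℕ → Y → ℝ)
    (hf : ∀ n, f n ∈ B) : ∃ φ : ℕ → ℕ, StrictMono φ ∧ ∃ g ∈ B, Tendsto (fun n => f (φ n)) atTop (𝓝 g) := by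
  choose nxt hnxt1 hnxt2 using fun (k : ℕ) (I : InfSet) => 
    exists_osc h hB f hf (1 / ((k : ℝ) + 1)) (by positivity) I
  let u : ℕ → InfSet := fun k => Nat.rec ⟨Set.univ, Set.infinite_univ⟩ (fun k J => nxt k J) k
  have hu : ∀ k, u (k+1) = nxt k (u k) := fun k => rfl
  have hmono : Monotone u := by
    apply monotone_nat_of_le_succ
    intro k
    rw [hu]
    exact InfSet.of_subset (hnxt1 _ _)
  obtain ⟨b, hb⟩ := InfSet.exists_upper _ hmono
  let e : ℕ → ℕ := Nat.nth (fun n => n ∈ b.1)
  have hemem : ∀ n, e n ∈ b.1 := fun n => Nat.nth_mem_of_infinite b.2 n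
  have hemono : StrictMono e := Nat.nth_strictMono b.2
  refine ⟨e, hemono, ?_⟩
  obtain ⟨g, hg, W, hW, hlim⟩ := h (fun n => f (e n)) (fun n => hf _)
  refine ⟨g, hg, ?_⟩
  rw [tendsto_pi_nhds]
  intro y
  have hcauchy : CauchySeq (fun n => f (e n) y) := by
    rw [Metric.cauchySeq_iff]
    intro ε hε
    obtain ⟨k, hk⟩ := exists_nat_one_div_lt hε
    have hyz : y ∈ Zset f (1 / ((k : ℝ) + 1)) b := by
      have h1 : y ∈ Zset f (1 / ((k : ℝ) + 1)) (u (k+1)) := hnxt2 k (u k) y
      exact Zset_mono _ _ (hb (k+1)) h1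
    obtain ⟨N, hN⟩ := hyz
    refine ⟨N, fun m hm n hn => ?_⟩
    rw [Real.dist_eq]
    exact lt_of_le_of_lt (hN _ (hemem m) _ (hemem n) (hm.trans (hemono.id_le m)) 
      (hn.trans (hemono.id_le n))) hk
  obtain ⟨c, hc⟩ := cauchySeq_tendsto_of_complete hcauchy
  have : c = g y := tendsto_nhds_unique (hc.mono_left hW) (hlim y)
  rw [← this]
  exact hc

theorem isClosed_of_seqClosed [FirstCountableTopology Y] [HereditarilyLindelofSpace Y]
    {B : Set (Y → ℝ)} (h : CCin B B) (hB : ∀ f ∈ B, Continuous f) {C : Set (Y → ℝ)} (hCB : C ⊆ B)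
    (hC : ∀ u : ℕ → Y → ℝ, (∀ n, u n ∈ C) → ∀ g, Tendsto u atTop (𝓝 g) → g ∈ C) : IsClosed C := by
  have hCC : CCin C C := by
    intro f hf
    obtain ⟨φ, hφ, g, hg, hlim⟩ := exists_subseq h hB f (fun n => hCB (hf n))
    refine ⟨g, hC _ (fun n => hf (φ n)) g hlim, (Filter.hyperfilter ℕ).map φ, ?_, ?_⟩
    · have h1 : ((Filter.hyperfilter ℕ : Ultrafilter ℕ) : Filter ℕ) ≤ atTop := by
        rw [← Nat.cofinite_eq_atTop]
        exact Filter.hyperfilter_le_cofinite
      exact (hφ.tendsto_atTop.mono_left h1)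
    · intro y
      rw [Ultrafilter.coe_map, Filter.tendsto_map'_iff]
      have h1 : ((Filter.hyperfilter ℕ : Ultrafilter ℕ) : Filter ℕ) ≤ atTop := by
        rw [← Nat.cofinite_eq_atTop]
        exact Filter.hyperfilter_le_cofinite
      exact ((tendsto_pi_nhds.1 hlim y).mono_left h1)
  rw [← closure_subset_iff_isClosed]
  intro g hg
  exact mem_of_mem_closure hCC (fun f hf => hB f (hCB hf)) hg

end SeqCompact

section Cp

universe u

theorem mapClusterPt_of_countablyCompactIn {Z : Type u} [TopologicalSpace Z] [T1Space Z] {A : Set Z}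
    (hA : CountablyCompactIn A) (z : ℕ → Z) (hz : ∀ n, z n ∈ A) :
    ∃ g : Z, MapClusterPt g atTop z := by
  by_cases hfin : (Set.range z).Finite
  · -- some value is taken infinitely often
    have hcl : ∃ g, ∃ᶠ n in atTop, z n = g := by
      by_contra hcon
      push Not at hcon
      have h1 : ∀ᶠ n in atTop, ∀ g ∈ Set.range z, ¬ z n = g := by
        rw [Filter.eventually_all_finite hfin]
        intro g _
        exact hcon g
      obtain ⟨n, hn⟩ := h1.exists
      exact hn (z n) ⟨n, rfl⟩ rfl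
    obtain ⟨g, hg⟩ := hcl
    refine ⟨g, ?_⟩
    rw [mapClusterPt_iff_frequently]
    intro s hs
    exact hg.mono (fun n hn => by rw [hn]; exact mem_of_mem_nhds hs)
  · obtain ⟨g, hg⟩ := hA (Set.range z) (by rintro _ ⟨n, rfl⟩; exact hz n) hfin
    refine ⟨g, ?_⟩
    rw [mapClusterPt_iff_frequently]
    intro s hs
    rw [Filter.frequently_atTop]
    intro N
    rw [accPt_iff_nhds] at hg
    have hF : (z '' (Finset.range N : Set ℕ) \ {g}).Finite := 
      ((Finset.finite_toSet _).image z).subset Set.sdiff_subset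
    have hmem : s ∩ (z '' (Finset.range N : Set ℕ) \ {g})ᶜ ∈ 𝓝 g := by
      apply Filter.inter_mem hs
      apply hF.isClosed.isOpen_compl.mem_nhds
      intro h
      exact h.2 rfl
    obtain ⟨y, ⟨⟨hy1, hy2⟩, ⟨n, rfl⟩⟩, hy4⟩ := hg _ hmem
    refine ⟨n, ?_, hy1⟩
    by_contra hlt
    apply hy2
    exact ⟨⟨n, by simpa using hlt, rfl⟩, hy4⟩

/-- underlying functions -/
def fns {Y : Type u} [TopologicalSpace Y] {Z : Set (Cp Y)} (A : Set Z) : Set (Y → ℝ) :=
  (fun z : Z => z.1.1) '' A

theorem CCin_of_countablyCompactIn {Y : Type u} [TopologicalSpace Y] {Z : Set (Cp Y)} {A : Set Z}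
    (hA : CountablyCompactIn A) : CCin (fns A) (fns (Set.univ : Set Z)) := by
  intro f hf
  choose z hz1 hz2 using hf
  obtain ⟨g, hg⟩ := mapClusterPt_of_countablyCompactIn hA z hz1
  obtain ⟨U, hU, hlim⟩ := mapClusterPt_iff_ultrafilter.1 hg
  refine ⟨g.1.1, ⟨g, mem_univ _, rfl⟩, U, hU, fun y => ?_⟩
  have hcont : Continuous (fun z : Z => z.1.1 y) := 
    (continuous_apply y).comp (continuous_subtype_val.comp continuous_subtype_val)
  have := (hcont.tendsto g).comp hlim
  refine this.congr (fun n => ?_)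
  simp only [Function.comp]
  exact congrFun (hz2 n) y

theorem continuous_of_mem_fns {Y : Type u} [TopologicalSpace Y] {Z : Set (Cp Y)} {A : Set Z} 
    {f : Y → ℝ} (hf : f ∈ fns A) : Continuous f := by
  obtain ⟨z, _, rfl⟩ := hf
  exact z.1.2

theorem isInducing_fns {Y : Type u} [TopologicalSpace Y] (Z : Set (Cp Y)) :
    IsInducing (fun z : Z => (z.1.1 : Y → ℝ)) :=
  IsInducing.comp (g := fun h : Cp Y => h.1) (f := fun z : Z => z.1) IsInducing.subtypeVal IsInducing.subtypeVal

/-- Main theorem for hereditarily Lindelöf first countable spaces. -/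
theorem compact_sequential {Y : Type u} [TopologicalSpace Y] [FirstCountableTopology Y] 
    [HereditarilyLindelofSpace Y] (Z : Set (Cp Y)) (hZ : CountablyCompactIn (Set.univ : Set Z)) :
    IsCompact Z ∧ SequentialSpace Z := by
  have h := CCin_of_countablyCompactIn hZ
  have hc : ∀ f ∈ fns (Set.univ : Set Z), Continuous f := fun f hf => continuous_of_mem_fns hf
  have hclosed : IsClosed (fns (Set.univ : Set Z)) := by
    rw [← closure_subset_iff_isClosed]
    intro g hg
    exact mem_of_mem_closure h hc hg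
  have hcomp : IsCompact (fns (Set.univ : Set Z)) := by
    have := isCompact_closure_of_CCin h
    rwa [hclosed.closure_eq] at this
  have hZc : IsCompact (Set.univ : Set Z) := (isInducing_fns Z).isCompact_iff.2 hcomp
  refine ⟨isCompact_iff_isCompact_univ.2 hZc, ⟨fun s hs => ?_⟩⟩
  have hC : IsClosed (fns s) := by
    apply isClosed_of_seqClosed h hc (Set.image_mono (subset_univ _))
    intro u hu g hg
    have hgB : g ∈ fns (Set.univ : Set Z) := by
      apply hclosed.mem_of_tendsto hg
      exact Eventually.of_forall fun n => (Set.image_mono (subset_univ _)) (hu n)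
    obtain ⟨z0, _, rfl⟩ := hgB
    choose z hz1 hz2 using hu
    refine ⟨z0, hs hz1 ?_, rfl⟩
    rw [(isInducing_fns Z).tendsto_nhds_iff]
    refine hg.congr (fun n => ?_)
    exact (hz2 n).symm
  have : s = (fun z : Z => (z.1.1 : Y → ℝ)) ⁻¹' (fns s) := by
    rw [fns, Set.preimage_image_eq]
    intro a b hab
    exact Subtype.ext (Subtype.ext hab)
  rw [this]
  exact hC.preimage (isInducing_fns Z).continuous

theorem hereditarilyLindelof_of_perfectlyNormal (X : Type u) [TopologicalSpace X] [CompactSpace X] [T2Space X]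
    [PerfectlyNormalSpace X] : HereditarilyLindelofSpace X := by
  apply HereditarilyLindelofSpace.of_forall_isOpen
  intro s hs
  have hG := PerfectlyNormalSpace.closed_gdelta hs.isClosed_compl
  rw [isGδ_iff_eq_iInter_nat] at hG
  obtain ⟨f, hf, hfs⟩ := hG
  have : s = ⋃ n, (f n)ᶜ := by
    rw [← compl_compl s, hfs, compl_iInter]
  rw [this]
  apply isLindelof_iUnion
  intro n
  exact (hf n).isClosed_compl.isCompact.isLindelof

theorem firstCountable_of_perfectlyNormal (X : Type u) [TopologicalSpace X] [CompactSpace X] [T2Space X]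
    [PerfectlyNormalSpace X] : FirstCountableTopology X := by
  constructor
  intro x
  have hG := PerfectlyNormalSpace.closed_gdelta (isClosed_singleton (x := x))
  rw [isGδ_iff_eq_iInter_nat] at hG
  obtain ⟨f, hf, hfs⟩ := hG
  have hxf : ∀ n, f n ∈ 𝓝 x := by
    intro n
    apply (hf n).mem_nhds
    have : x ∈ ⋂ n, f n := by rw [← hfs]; rfl
    exact mem_iInter.1 this n
  choose K hK1 hK2 hK3 using fun n => exists_mem_nhds_isClosed_subset (hxf n)
  have hbasis : (𝓝 x).HasBasis (fun _ : Finset ℕ => True) (fun F => ⋂ n ∈ F, K n) := by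
    constructor
    intro t
    constructor
    · intro ht
      have := exists_subset_nhds_of_isCompact' (V := fun F : Finset ℕ => ⋂ n ∈ F, K n) (by
        apply directed_of_isDirected_le
        intro F G hFG
        exact biInter_subset_biInter_left hFG) 
        (fun F => (isClosed_biInter fun n _ => hK2 n).isCompact) (fun F => isClosed_biInter fun n _ => hK2 n)
        (U := t) (by
          intro y hy
          have : y ∈ ({x} : Set X) := by
            rw [hfs]
            apply mem_iInter.2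
            intro n
            have h1 := mem_iInter.1 hy {n}
            simp only [Finset.mem_singleton, iInter_iInter_eq_left] at h1
            exact hK3 n h1
          rw [mem_singleton_iff.1 this]
          exact ht)
      obtain ⟨F, hF⟩ := this
      exact ⟨F, trivial, hF⟩
    · rintro ⟨F, _, hF⟩
      refine Filter.mem_of_superset ?_ hF
      rw [Filter.biInter_finset_mem]
      intro n _
      exact hK1 n
  exact hbasis.isCountablyGenerated

theorem CCin_of_isCompact {Y : Type u} {B : Set (Y → ℝ)} (hB : IsCompact B) : CCin B B := by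
  intro f hf
  obtain ⟨g, hg, hlim⟩ := hB.ultrafilter_le_nhds ((Filter.hyperfilter ℕ).map f) (by
    rw [Filter.le_principal_iff]
    show ∀ᶠ n in ((Filter.hyperfilter ℕ : Ultrafilter ℕ) : Filter ℕ), f n ∈ B
    exact Eventually.of_forall hf)
  refine ⟨g, hg, Filter.hyperfilter ℕ, ?_, ?_⟩
  · rw [← Nat.cofinite_eq_atTop]
    exact Filter.hyperfilter_le_cofinite
  · have : Tendsto f (Filter.hyperfilter ℕ : Ultrafilter ℕ) (𝓝 g) := hlim
    exact tendsto_pi_nhds.1 this

/-- a criterion -/
theorem isGrothendieck_of_frechet {Y : Type u} [TopologicalSpace Y] [FirstCountableTopology Y]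
    (hFU : ∀ B : Set (Y → ℝ), IsCompact B → (∀ f ∈ B, Continuous f) → ∀ S ⊆ B, ∀ g ∈ closure S,
      ∃ u : ℕ → Y → ℝ, (∀ n, u n ∈ S) ∧ Tendsto u atTop (𝓝 g)) : IsGrothendieck Y := by
  intro Z A hA
  have h := CCin_of_countablyCompactIn hA
  have hc : ∀ f ∈ fns (Set.univ : Set Z), Continuous f := fun f hf => continuous_of_mem_fns hf
  have hcomp := isCompact_closure_of_CCin h
  have hcont : ∀ f ∈ closure (fns A), Continuous f := fun f hf => continuous_of_closure h hc hf
  have hsub : closure (fns A) ⊆ fns (Set.univ : Set Z) := by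
    intro g hg
    obtain ⟨u, hu, hlim⟩ := hFU _ hcomp hcont (fns A) subset_closure g hg
    obtain ⟨g', hg', U, hU, hlim'⟩ := h u hu
    have : g = g' := by
      funext y
      exact tendsto_nhds_unique ((tendsto_pi_nhds.1 hlim y).mono_left hU) (hlim' y)
    rwa [this]
  rw [(isInducing_fns Z).isCompact_iff, (isInducing_fns Z).closure_eq_preimage_closure_image,
    Set.image_preimage_eq_inter_range]
  have h2 : closure ((fun z : Z => (z.1.1 : Y → ℝ)) '' A) ∩ Set.range (fun z : Z => (z.1.1 : Y → ℝ)) = 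
      closure (fns A) := by
    apply Set.inter_eq_left.2
    rw [← Set.image_univ]
    exact hsub
  rw [h2]
  exact hcomp

end Cp

end Helper88.CpTheory
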