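import Mathlib
import Pool.Agent.Lib.Helper88.CpDefs
import Pool.Agent.Lib.Helper88.CpCore

/-!
# The bounding number and the Fréchet-Urysohn property of pointwise compact sets
-/

open Set Filter Topology

namespace Helper88.CpTheory

section FU

universe u

theorem exists_dominating {ι : Type} (h : Cardinal.mk ι < boundingNumber) (φ : ι → ℕ → ℕ) :
    ∃ g : ℕ → ℕ, ∀ i, ∀ᶠ n in atTop, φ i n ≤ g n := by
  by_contra hcon
  have h1 : boundingNumber ≤ Cardinal.mk (Set.range φ) := by
    apply csInf_le'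
    refine ⟨Set.range φ, rfl, ?_⟩
    rintro ⟨g, hg⟩
    exact hcon ⟨g, fun i => hg _ ⟨i, rfl⟩⟩
  exact absurd (h1.trans Cardinal.mk_range_le) (not_le.2 h)

theorem aleph0_lt_boundingNumber : Cardinal.aleph0 < boundingNumber := by
  by_contra hcon
  have hne : {κ : Cardinal.{0} | ∃ S : Set (ℕ → ℕ), Cardinal.mk S = κ ∧
    ¬ ∃ g : ℕ → ℕ, ∀ f ∈ S, ∀ᶠ n in atTop, f n ≤ g n}.Nonempty := by
    refine ⟨_, Set.univ, rfl, ?_⟩
    rintro ⟨g, hg⟩
    obtain ⟨n, hn⟩ := (hg (fun n => g n + 1) (mem_univ _)).exists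
    omega
  obtain ⟨S, hS, hS'⟩ := csInf_mem hne
  have hSc : S.Countable := by
    rw [← Cardinal.le_aleph0_iff_set_countable, hS]
    exact not_lt.1 hcon
  apply hS'
  rcases S.eq_empty_or_nonempty with rfl | hSne
  · exact ⟨0, by simp⟩
  obtain ⟨f, rfl⟩ := hSc.exists_eq_range hSne
  refine ⟨fun n => ∑ k ∈ Finset.range (n+1), f k n, ?_⟩
  rintro _ ⟨k, rfl⟩
  filter_upwards [eventually_ge_atTop k] with n hn
  exact Finset.single_le_sum (f := fun k => f k n) (fun _ _ => Nat.zero_le _) (Finset.mem_range.2 (by omega))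

theorem frechet_of_density {Y : Type} [TopologicalSpace Y] [FirstCountableTopology Y]
    [HereditarilyLindelofSpace Y] (D : Set Y) (hD : Dense D) (hcard : Cardinal.mk D < boundingNumber)
    (B : Set (Y → ℝ)) (hB : IsCompact B) (hc : ∀ f ∈ B, Continuous f) (S : Set (Y → ℝ)) (hSB : S ⊆ B)
    (g : Y → ℝ) (hg : g ∈ closure S) : 
    ∃ u : ℕ → Y → ℝ, (∀ n, u n ∈ S) ∧ Tendsto u atTop (𝓝 g) := by
  have h := CCin_of_isCompact hB
  let C : Set (Y → ℝ) := {g | ∃ u : ℕ → Y → ℝ, (∀ n, u n ∈ S) ∧ Tendsto u atTop (𝓝 g)}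
  have hCB : C ⊆ B := by
    rintro g ⟨u, hu, hlim⟩
    exact hB.isClosed.mem_of_tendsto hlim (Eventually.of_forall fun n => hSB (hu n))
  have hC : IsClosed C := by
    apply isClosed_of_seqClosed h hc hCB
    intro v hv g hg
    choose u hu hlim using hv
    have hN : ∀ (y : D) (n : ℕ), ∃ N, ∀ m, N ≤ m → |u n m y - v n y| < 1 / ((n : ℝ) + 1) := by
      intro y n
      have h1 := tendsto_pi_nhds.1 (hlim n) y
      rw [Metric.tendsto_atTop] at h1
      obtain ⟨N, hN⟩ := h1 (1 / ((n : ℝ) + 1)) (by positivity)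
      exact ⟨N, fun m hm => by simpa [Real.dist_eq] using hN m hm⟩
    choose N hN using hN
    obtain ⟨ψ, hψ⟩ := exists_dominating hcard N
    obtain ⟨φ, hφ, g', hg', hlim'⟩ := exists_subseq h hc (fun n => u n (ψ n)) (fun n => hSB (hu _ _))
    have hgB : g ∈ B := hB.isClosed.mem_of_tendsto hg (Eventually.of_forall fun n => hCB ⟨u n, hu n, hlim n⟩)
    have heq : g' = g := by
      apply Continuous.ext_on hD (hc g' hg') (hc g hgB)
      intro y hy
      have h1 : Tendsto (fun n => u n (ψ n) y - v n y) atTop (𝓝 0) := by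
        rw [tendsto_zero_iff_abs_tendsto_zero]
        apply squeeze_zero' (g := fun n : ℕ => 1 / ((n : ℝ) + 1))
        · exact Eventually.of_forall fun n => abs_nonneg _
        · filter_upwards [hψ ⟨y, hy⟩] with n hn
          exact (hN ⟨y, hy⟩ n _ hn).le
        · exact tendsto_one_div_add_atTop_nhds_zero_nat
      have h2 := h1.add (tendsto_pi_nhds.1 hg y)
      simp only [sub_add_cancel, zero_add] at h2
      exact tendsto_nhds_unique (tendsto_pi_nhds.1 hlim' y) (h2.comp hφ.tendsto_atTop)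
    exact ⟨fun n => u (φ n) (ψ (φ n)), fun n => hu _ _, heq ▸ hlim'⟩
  have hSC : S ⊆ C := fun g hg => ⟨fun _ => g, fun _ => hg, tendsto_const_nhds⟩
  exact closure_minimal hSC hC hg

theorem hereditarilyGrothendieck_of_density (X : Type) [TopologicalSpace X] [CompactSpace X] [T2Space X] [PerfectlyNormalSpace X]
    (hd : ∀ F : Set X, IsClosed F → ∃ D : Set X, D ⊆ F ∧ F ⊆ closure D ∧ 
      Cardinal.mk D < boundingNumber) :
    IsHereditarilyGrothendieck X := by
  have := hereditarilyLindelof_of_perfectlyNormal X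
  have := firstCountable_of_perfectlyNormal X
  intro Y
  obtain ⟨D, hDF, hFD, hD⟩ := hd (closure Y) isClosed_closure
  have hseq : ∀ d : D, ∃ s : ℕ → Y, Tendsto (fun n => (s n : X)) atTop (𝓝 d) := by
    intro d
    obtain ⟨s, hs, hlim⟩ := mem_closure_iff_seq_limit.1 (hDF d.2)
    exact ⟨fun n => ⟨s n, hs n⟩, hlim⟩
  choose s hs using hseq
  let E : Set Y := Set.range (fun q : D × ℕ => s q.1 q.2)
  have hE : Dense E := by
    intro y
    rw [IsInducing.subtypeVal.closure_eq_preimage_closure_image]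
    show (y : X) ∈ closure (Subtype.val '' E)
    have h1 : (y : X) ∈ closure D := hFD (subset_closure y.2)
    have h2 : D ⊆ closure (Subtype.val '' E) := by
      intro d hd
      apply mem_closure_of_tendsto (hs ⟨d, hd⟩)
      exact Eventually.of_forall fun n => ⟨_, ⟨(⟨d, hd⟩, n), rfl⟩, rfl⟩
    exact closure_minimal h2 isClosed_closure h1
  have hEc : Cardinal.mk E < boundingNumber := by
    refine lt_of_le_of_lt Cardinal.mk_range_le ?_
    rw [Cardinal.mk_prod, Cardinal.lift_id, Cardinal.lift_id, Cardinal.mk_nat]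
    exact Cardinal.mul_lt_of_lt aleph0_lt_boundingNumber.le hD aleph0_lt_boundingNumber
  apply isGrothendieck_of_frechet
  intro B hB hc S hSB g hg
  exact frechet_of_density E hE hEc B hB hc S hSB g hg

end FU

section Density

universe u

theorem density (X : Type) [TopologicalSpace X] [CompactSpace X] [T2Space X] [PerfectlyNormalSpace X]
    (F : Set X) (hF : IsClosed F) : 
    ∃ D : Set X, D ⊆ F ∧ F ⊆ closure D ∧ Cardinal.mk D ≤ Cardinal.aleph 1 := by
  classical
  have := firstCountable_of_perfectlyNormal X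
  rcases F.eq_empty_or_nonempty with rfl | ⟨x0, hx0⟩
  · exact ⟨∅, by simp, by simp, by simp⟩
  let I : Type := (Cardinal.aleph 1 : Cardinal.{0}).ord.ToType
  have hIcard : Cardinal.mk I = Cardinal.aleph 1 := Cardinal.mk_ord_toType _
  have hIio : ∀ i : I, Countable {j : I // j < i} := by
    intro i
    have h1 : Cardinal.mk (Set.Iio i) < Cardinal.aleph 1 := Cardinal.mk_Iio_toType_ord_lt i
    have h2 : Cardinal.mk (Set.Iio i) ≤ Cardinal.aleph0 := by
      rw [← Order.lt_succ_iff, Cardinal.succ_aleph0]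
      exact h1
    exact Cardinal.mk_le_aleph0_iff.1 h2
  have hbdd : ∀ s : ℕ → I, ∃ k : I, ∀ n, s n < k := by
    intro s
    by_contra hcon
    push Not at hcon
    have h1 : (Set.univ : Set I) ⊆ ⋃ n, (Set.Iic (s n)) := by
      intro k _
      obtain ⟨n, hn⟩ := hcon k
      exact mem_iUnion.2 ⟨n, hn⟩
    have h2 : (Set.univ : Set I).Countable := by
      apply Set.Countable.mono h1
      apply Set.countable_iUnion
      intro n
      have h3 : (Set.Iic (s n)) = Set.Iio (s n) ∪ {s n} := by
        ext x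
        simp [le_iff_lt_or_eq]
      rw [h3]
      exact (Set.countable_coe_iff.1 (hIio (s n))).union (Set.countable_singleton _)
    rw [Set.countable_univ_iff] at h2
    have h3 := Cardinal.mk_le_aleph0_iff.2 h2
    rw [hIcard] at h3
    exact absurd h3 (not_le.2 Cardinal.aleph0_lt_aleph_one)
  -- open sets
  have hU : ∀ C : Set X, ∃ U : ℕ → Set X, (∀ n, IsOpen (U n)) ∧ closure C = ⋂ n, U n := by
    intro C
    exact isGδ_iff_eq_iInter_nat.1 (PerfectlyNormalSpace.closed_gdelta (isClosed_closure (s := C)))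
  choose U hUo hUc using hU
  have hpk : ∀ W : Set X, ∃ x ∈ F, (F \ W).Nonempty → x ∉ W := by
    intro W
    by_cases hW : (F \ W).Nonempty
    · obtain ⟨x, hx, hx'⟩ := hW
      exact ⟨x, hx, fun _ => hx'⟩
    · exact ⟨x0, hx0, fun h => (hW h).elim⟩
  choose pk hpkF hpk using hpk
  let step : (i : I) → ((j : I) → j < i → Set X) → Set X := fun i ih =>
    (⋃ j : {j : I // j < i}, ih j.1 j.2) ∪ 
      Set.range (fun t : Finset ({j : I // j < i} × ℕ) => pk (⋃ q ∈ t, U (ih q.1.1 q.1.2) q.2))
  have hwf : WellFounded ((· < ·) : I → I → Prop) := wellFounded_lt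
  let A : I → Set X := hwf.fix step
  have hA : ∀ i, A i = (⋃ j : {j : I // j < i}, A j.1) ∪ 
      Set.range (fun t : Finset ({j : I // j < i} × ℕ) => pk (⋃ q ∈ t, U (A q.1.1) q.2)) := by
    intro i
    exact hwf.fix_eq step i
  have hAF : ∀ i, A i ⊆ F := by
    intro i
    induction i using hwf.induction with
    | _ i ih =>
      rw [hA]
      apply union_subset
      · exact iUnion_subset fun j => ih j.1 j.2
      · rintro _ ⟨t, rfl⟩
        exact hpkF _
  have hAc : ∀ i, (A i).Countable := by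
    intro i
    induction i using hwf.induction with
    | _ i ih =>
      rw [hA]
      have := hIio i
      apply Set.Countable.union
      · exact Set.countable_iUnion fun j => ih j.1 j.2
      · exact Set.countable_range _
  have hAmono : ∀ i j, i < j → A i ⊆ A j := by
    intro i j hij
    rw [hA j]
    exact (subset_iUnion (fun j' : {j' : I // j' < j} => A j'.1) ⟨i, hij⟩).trans subset_union_left
  refine ⟨⋃ i, A i, iUnion_subset hAF, ?_, ?_⟩
  · intro p hp
    by_contra hpA
    have hcl : closure (⋃ i, A i) ⊆ ⋃ i, closure (A i) := by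
      intro x hx
      obtain ⟨s, hs, hlim⟩ := mem_closure_iff_seq_limit.1 hx
      choose i hi using fun n => mem_iUnion.1 (hs n)
      obtain ⟨k, hk⟩ := hbdd i
      refine mem_iUnion.2 ⟨k, ?_⟩
      exact mem_closure_of_tendsto hlim (Eventually.of_forall fun n => hAmono _ _ (hk n) (hi n))
    have hn : ∀ i, ∃ n, p ∉ U (A i) n := by
      intro i
      have h1 : p ∉ closure (A i) := fun h => hpA (closure_mono (subset_iUnion A i) h)
      rw [hUc] at h1
      simpa using h1
    choose n hn using hn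
    obtain ⟨t, ht⟩ := (isClosed_closure (s := ⋃ i, A i)).isCompact.elim_finite_subcover
      (fun i => U (A i) (n i)) (fun i => hUo _ _) (by
        refine hcl.trans (iUnion_mono fun i => ?_)
        rw [hUc]
        exact iInter_subset _ _)
    have hk : ∃ k : I, ∀ i ∈ t, i < k := by
      obtain ⟨k0, _⟩ := hbdd (fun _ => (Cardinal.mk_ne_zero_iff.1 (by rw [hIcard]; exact (Cardinal.aleph_pos 1).ne') : Nonempty I).some)
      clear ht
      induction t using Finset.induction_on with
      | empty => exact ⟨k0, by simp⟩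
      | insert a t _ ih =>
        obtain ⟨k, hk⟩ := ih
        obtain ⟨k', hk'⟩ := hbdd (fun n => if n = 0 then a else k)
        refine ⟨k', fun i hi => ?_⟩
        rcases Finset.mem_insert.1 hi with rfl | hi
        · exact hk' 0
        · exact (hk i hi).trans (hk' 1)
    obtain ⟨k, hk⟩ := hk
    let t' : Finset ({j : I // j < k} × ℕ) := t.attach.image (fun i => (⟨i.1, hk i.1 i.2⟩, n i.1))
    have hG : (⋃ q ∈ t', U (A q.1.1) q.2) = ⋃ i ∈ t, U (A i) (n i) := by
      ext x
      simp only [t', Finset.mem_image, Finset.mem_attach, true_and, Subtype.exists, mem_iUnion, exists_prop]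
      constructor
      · rintro ⟨q, ⟨i, hi, rfl⟩, hx⟩
        exact ⟨i, hi, hx⟩
      · rintro ⟨i, hi, hx⟩
        exact ⟨_, ⟨i, hi, rfl⟩, hx⟩
    have hpG : p ∉ ⋃ i ∈ t, U (A i) (n i) := by
      simp only [mem_iUnion, not_exists]
      intro i _ h
      exact hn i h
    have h1 : pk (⋃ q ∈ t', U (A q.1.1) q.2) ∈ A k := by
      rw [hA k]
      exact Or.inr ⟨t', rfl⟩
    have h2 : pk (⋃ q ∈ t', U (A q.1.1) q.2) ∉ ⋃ q ∈ t', U (A q.1.1) q.2 := by
      apply hpk
      exact ⟨p, hp, by rw [hG]; exact hpG⟩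
    apply h2
    rw [hG]
    apply ht
    rw [← hG]
    exact subset_closure (mem_iUnion.2 ⟨k, h1⟩)
  · refine (Cardinal.mk_iUnion_le A).trans ?_
    have h1 : ⨆ i, Cardinal.mk (A i) ≤ Cardinal.aleph0 := by
      apply ciSup_le'
      intro i
      exact Cardinal.mk_le_aleph0_iff.2 (hAc i).to_subtype
    rw [hIcard]
    refine (mul_le_mul' le_rfl h1).trans ?_
    rw [Cardinal.mul_eq_left (Cardinal.aleph0_le_aleph 1) (Cardinal.aleph0_le_aleph 1) Cardinal.aleph0_ne_zero]

end Density

end Helper88.CpTheory
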