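import Mathlib
import Pool.Agent.Lib.Helper88.CpDefs
import Pool.Agent.Lib.Helper88.CpCore

/-!
# Continuous images of compact ordered spaces
-/

open Set Filter Topology

namespace Helper88.CpTheory

section LOTS

universe u

variable {L X : Type u} [LinearOrder L] [TopologicalSpace L] [OrderTopology L] [CompactSpace L]
  [TopologicalSpace X] [T2Space X]

omit [TopologicalSpace L] [OrderTopology L] [CompactSpace L] in
/-- same type over `E` -/
def SameType (E : Set L) (z z' : L) : Prop := ∀ e ∈ E, (e < z ↔ e < z') ∧ (z < e ↔ z' < e)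

omit [OrderTopology L] in
/-- preimages of Lindelöf sets are Lindelöf -/
theorem lindelof_preimage [HereditarilyLindelofSpace X] (π : L → X) (hπ : Continuous π) (W : Set X)
    (V : L → Set L) (hV : ∀ z ∈ π ⁻¹' W, IsOpen (V z) ∧ z ∈ V z) : 
    ∃ C : Set L, C.Countable ∧ C ⊆ π ⁻¹' W ∧ π ⁻¹' W ⊆ ⋃ z ∈ C, V z := by
  classical
  have hfib : ∀ w ∈ W, ∃ t : Finset L, (t : Set L) ⊆ π ⁻¹' {w} ∧ π ⁻¹' {w} ⊆ ⋃ z ∈ t, V z := by
    intro w hw
    have hcomp : IsCompact (π ⁻¹' {w}) := (isClosed_singleton.preimage hπ).isCompact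
    obtain ⟨t, ht, ht'⟩ := hcomp.elim_nhds_subcover V (by
      intro z hz
      have : z ∈ π ⁻¹' W := by
        rw [mem_preimage, mem_singleton_iff] at hz
        rw [mem_preimage, hz]
        exact hw
      exact (hV z this).1.mem_nhds (hV z this).2)
    exact ⟨t, ht, ht'⟩
  choose! t ht1 ht2 using hfib
  let O : X → Set X := fun w => (π '' (⋃ z ∈ t w, V z)ᶜ)ᶜ
  have hO : ∀ w ∈ W, IsOpen (O w) ∧ w ∈ O w := by
    intro w hw
    constructor
    · have hop : IsOpen (⋃ z ∈ t w, V z) := by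
        apply isOpen_biUnion
        intro z hz
        have : z ∈ π ⁻¹' W := by
          have := ht1 w hw hz
          rw [mem_preimage, mem_singleton_iff] at this
          rw [mem_preimage, this]
          exact hw
        exact (hV z this).1
      exact (hop.isClosed_compl.isCompact.image hπ).isClosed.isOpen_compl
    · rintro ⟨z, hz, rfl⟩
      exact hz (ht2 (π z) hw rfl)
  have hOsub : ∀ w ∈ W, π ⁻¹' (O w) ⊆ ⋃ z ∈ t w, V z := by
    intro w _ z hz
    by_contra hcon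
    exact hz ⟨z, hcon, rfl⟩
  obtain ⟨r, hrc, hrW, hr⟩ := (HereditarilyLindelofSpace.isLindelof W).elim_nhds_subcover O (by
    intro w hw
    exact (hO w hw).1.mem_nhds (hO w hw).2)
  refine ⟨⋃ w ∈ r, (t w : Set L), ?_, ?_, ?_⟩
  · exact hrc.biUnion fun w _ => (t w).countable_toSet
  · intro z hz
    simp only [mem_iUnion] at hz
    obtain ⟨w, hw, hz⟩ := hz
    have := ht1 w (hrW w hw) hz
    rw [mem_preimage, mem_singleton_iff] at this
    rw [mem_preimage, this]
    exact hrW w hw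
  · intro z hz
    have h1 := hr hz
    simp only [mem_iUnion] at h1
    obtain ⟨w, hw, hzw⟩ := h1
    have h2 := hOsub w (hrW w hw) hzw
    simp only [mem_iUnion] at h2 ⊢
    obtain ⟨z', hz', hzV⟩ := h2
    exact ⟨z', ⟨w, hw, hz'⟩, hzV⟩

omit [CompactSpace L] in
theorem exists_interval {z : L} {s : Set L} (hs : s ∈ 𝓝 z) : 
    ∃ A B : Set L, A.Finite ∧ B.Finite ∧ (∀ a ∈ A, a < z) ∧ (∀ b ∈ B, z < b) ∧ 
      {x | (∀ a ∈ A, a < x) ∧ (∀ b ∈ B, x < b)} ⊆ s := by
  have hleft : ∃ A : Set L, A.Finite ∧ (∀ a ∈ A, a < z) ∧ ∀ x ≤ z, (∀ a ∈ A, a < x) → x ∈ s := by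
    by_cases h : ∃ l, l < z
    · obtain ⟨l, hl, hls⟩ := exists_Ioc_subset_of_mem_nhds hs h
      refine ⟨{l}, Set.finite_singleton l, ?_, ?_⟩
      · intro a ha; rw [mem_singleton_iff.1 ha]; exact hl
      · intro x hx hx'
        exact hls ⟨hx' l rfl, hx⟩
    · push Not at h
      refine ⟨∅, Set.finite_empty, by simp, fun x hx _ => ?_⟩
      rw [le_antisymm hx (h x)]
      exact mem_of_mem_nhds hs
  have hright : ∃ B : Set L, B.Finite ∧ (∀ b ∈ B, z < b) ∧ ∀ x, z ≤ x → (∀ b ∈ B, x < b) → x ∈ s := by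
    by_cases h : ∃ l, z < l
    · obtain ⟨l, hl, hls⟩ := exists_Ico_subset_of_mem_nhds hs h
      refine ⟨{l}, Set.finite_singleton l, ?_, ?_⟩
      · intro a ha; rw [mem_singleton_iff.1 ha]; exact hl
      · intro x hx hx'
        exact hls ⟨hx, hx' l rfl⟩
    · push Not at h
      refine ⟨∅, Set.finite_empty, by simp, fun x hx _ => ?_⟩
      rw [le_antisymm (h x) hx]
      exact mem_of_mem_nhds hs
  obtain ⟨A, hA, hA1, hA2⟩ := hleft
  obtain ⟨B, hB, hB1, hB2⟩ := hright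
  refine ⟨A, B, hA, hB, hA1, hB1, fun x hx => ?_⟩
  rcases le_total x z with h | h
  · exact hA2 x h hx.1
  · exact hB2 x h hx.2

omit [CompactSpace L] in
theorem isOpen_interval {A B : Set L} (hA : A.Finite) (hB : B.Finite) : 
    IsOpen {x : L | (∀ a ∈ A, a < x) ∧ (∀ b ∈ B, x < b)} := by
  have : {x : L | (∀ a ∈ A, a < x) ∧ (∀ b ∈ B, x < b)} = (⋂ a ∈ A, Set.Ioi a) ∩ (⋂ b ∈ B, Set.Iio b) := by
    ext x
    simp
  rw [this]
  exact (hA.isOpen_biInter fun a _ => isOpen_Ioi).inter (hB.isOpen_biInter fun a _ => isOpen_Iio)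

/-- Lemma 1 -/
theorem exists_types [HereditarilyLindelofSpace X] (π : L → X) (hπ : Continuous π) (Y O : Set X) (hO : IsOpen O) : 
    ∃ E : Set L, E.Countable ∧ ∀ z ∈ π ⁻¹' (Y ∩ O), ∀ z', SameType E z z' → π z' ∈ O := by
  have h1 : ∀ z ∈ π ⁻¹' (Y ∩ O), ∃ A B : Set L, A.Finite ∧ B.Finite ∧ (∀ a ∈ A, a < z) ∧ (∀ b ∈ B, z < b) ∧ 
      {x | (∀ a ∈ A, a < x) ∧ (∀ b ∈ B, x < b)} ⊆ π ⁻¹' O := by
    intro z hz
    exact exists_interval ((hO.preimage hπ).mem_nhds hz.2)
  choose! A B hA hB hAz hBz hAB using h1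
  obtain ⟨C, hC, hCsub, hcov⟩ := lindelof_preimage π hπ (Y ∩ O) 
    (fun z => {x | (∀ a ∈ A z, a < x) ∧ (∀ b ∈ B z, x < b)}) 
    (fun z hz => ⟨isOpen_interval (hA z hz) (hB z hz), hAz z hz, hBz z hz⟩)
  refine ⟨⋃ z ∈ C, (A z ∪ B z), ?_, ?_⟩
  · exact hC.biUnion fun z hz => ((hA z (hCsub hz)).union (hB z (hCsub hz))).countable
  · intro z hz z' hzz'
    have h2 := hcov hz
    simp only [mem_iUnion] at h2
    obtain ⟨c, hc, hzc⟩ := h2
    apply hAB c (hCsub hc)
    constructor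
    · intro a ha
      exact ((hzz' a (mem_biUnion hc (Or.inl ha))).1).1 (hzc.1 a ha)
    · intro b hb
      exact ((hzz' b (mem_biUnion hc (Or.inr hb))).2).1 (hzc.2 b hb)

/-- Given countably many continuous functions on `Y`, there are a countable `E` describing them, and a countable
subset `Q` of `Y` deciding the equality of two continuous functions that are constant on `E`-types. -/
theorem exists_countable_test [HereditarilyLindelofSpace X] (π : L → X) (hπ : Continuous π) 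
    (hs : Function.Surjective π) (Y : Set X) (d : ℕ → Y → ℝ) (hd : ∀ n, Continuous (d n)) :
    ∃ Q : Set Y, Q.Countable ∧ ∀ h h' : Y → ℝ, Continuous h → Continuous h' → 
      (∀ y y' : Y, (∀ n, d n y = d n y') → h y = h y') →
      (∀ y y' : Y, (∀ n, d n y = d n y') → h' y = h' y') →
      (∀ q ∈ Q, h q = h' q) → h = h' := by
  classical
  -- the set E
  have h1 : ∀ (n : ℕ) (p : ℚ × ℚ), ∃ O : Set X, IsOpen O ∧ d n ⁻¹' (Ioo (p.1 : ℝ) p.2) = Subtype.val ⁻¹' O := by
    intro n p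
    obtain ⟨O, hO, hO'⟩ := isOpen_induced_iff.1 ((isOpen_Ioo (a := (p.1 : ℝ)) (b := p.2)).preimage (hd n))
    exact ⟨O, hO, hO'.symm⟩
  choose O hO hdO using h1
  choose E0 hE0c hE0 using fun (n : ℕ) (p : ℚ × ℚ) => exists_types π hπ Y (O n p) (hO n p)
  let E : Set L := ⋃ n, ⋃ p, E0 n p
  have hEc : E.Countable := countable_iUnion fun n => countable_iUnion fun p => hE0c n p
  have hEd : ∀ z z' : L, ∀ (hz : π z ∈ Y) (hz' : π z' ∈ Y), SameType E z z' → 
      ∀ n, d n ⟨π z, hz⟩ = d n ⟨π z', hz'⟩ := by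
    have key : ∀ z z' : L, ∀ (hz : π z ∈ Y) (hz' : π z' ∈ Y), SameType E z z' → 
      ∀ n, ¬ d n ⟨π z, hz⟩ < d n ⟨π z', hz'⟩ := by
      intro z z' hz hz' hzz' n hlt
      obtain ⟨q, hq1, hq2⟩ := exists_rat_btwn hlt
      obtain ⟨p, hp⟩ := exists_rat_lt (d n ⟨π z, hz⟩)
      have h2 : π z ∈ O n (p, q) := by
        have : (⟨π z, hz⟩ : Y) ∈ d n ⁻¹' (Ioo (p : ℝ) q) := ⟨hp, hq1⟩
        rw [hdO n (p, q)] at this
        exact this
      have h3 := hE0 n (p, q) z ⟨hz, h2⟩ z' (fun e he => hzz' e (mem_iUnion.2 ⟨n, mem_iUnion.2 ⟨_, he⟩⟩))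
      have h4 : (⟨π z', hz'⟩ : Y) ∈ d n ⁻¹' (Ioo (p : ℝ) q) := by
        rw [hdO n (p, q)]
        exact h3
      exact absurd h4.2 (not_lt.2 hq2.le)
    intro z z' hz hz' hzz' n
    apply le_antisymm
    · exact not_lt.1 (key z' z hz' hz (fun e he => ⟨(hzz' e he).1.symm, (hzz' e he).2.symm⟩) n)
    · exact not_lt.1 (key z z' hz hz' hzz' n)
  -- the set Q0
  let Y' : Set L := π ⁻¹' Y
  have h2 : ∀ e e' : L, ∃ q : L, (Ioo e e' ∩ Y').Nonempty → q ∈ Ioo e e' ∩ Y' := by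
    intro e e'
    by_cases h : (Ioo e e' ∩ Y').Nonempty
    · obtain ⟨q, hq⟩ := h
      exact ⟨q, fun _ => hq⟩
    · exact ⟨e, fun h' => (h h').elim⟩
  choose pick hpick using h2
  let Q0 : Set L := (E ∪ (fun p : L × L => pick p.1 p.2) '' (E ×ˢ E)) ∩ Y'
  have hQ0c : Q0.Countable := (hEc.union ((hEc.prod hEc).image _)).mono inter_subset_left
  -- local constancy
  have hloc : ∀ y : L, y ∈ Y' → y ∉ closure Q0 → ∃ V : Set L, IsOpen V ∧ y ∈ V ∧ 
      ∀ z ∈ V, z ∈ Y' → SameType E y z := by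
    intro y hyY hyQ
    have hnhd : (closure Q0)ᶜ ∈ 𝓝 y := isClosed_closure.isOpen_compl.mem_nhds hyQ
    obtain ⟨A, B, hA, hB, hAy, hBy, hAB⟩ := exists_interval hnhd
    let V : Set L := {x | (∀ a ∈ A, a < x) ∧ (∀ b ∈ B, x < b)}
    have hVQ : ∀ x ∈ V, x ∉ Q0 := fun x hx hxQ => hAB hx (subset_closure hxQ)
    have hyV : y ∈ V := ⟨hAy, hBy⟩
    have hconv : ∀ a ∈ V, ∀ b ∈ V, ∀ c, a ≤ c → c ≤ b → c ∈ V := by
      intro a ha b hb c hac hcb
      exact ⟨fun x hx => (ha.1 x hx).trans_le hac, fun x hx => hcb.trans_lt (hb.2 x hx)⟩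
    have hyE : y ∉ E := fun h => hVQ y hyV ⟨Or.inl h, hyY⟩
    -- right side
    have hright : ∃ B' : Set L, B'.Finite ∧ (∀ b ∈ B', y < b) ∧ ∀ z ∈ V, z ∈ Y' → y < z → (∀ b ∈ B', z < b) → 
        ∀ e ∈ E, ¬ (y < e ∧ e ≤ z) := by
      by_cases hR : ∃ e1 ∈ E, y < e1 ∧ e1 ∈ V
      · obtain ⟨e1, he1, hye1, he1V⟩ := hR
        refine ⟨{e1}, Set.finite_singleton _, ?_, ?_⟩
        · intro b hb; rw [mem_singleton_iff.1 hb]; exact hye1
        · intro z hzV hzY hyz hze1 e he hye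
          have hze1' : z < e1 := hze1 e1 rfl
          rcases eq_or_lt_of_le hye.2 with h | h
          · subst h
            exact hVQ _ hzV ⟨Or.inl he, hzY⟩
          · have h3 := hpick e e1 ⟨z, ⟨h, hze1'⟩, hzY⟩
            apply hVQ (pick e e1)
            · exact hconv y hyV e1 he1V _ (hye.1.le.trans h3.1.1.le) h3.1.2.le
            · exact ⟨Or.inr ⟨(e, e1), ⟨he, he1⟩, rfl⟩, h3.2⟩
      · push Not at hR
        refine ⟨∅, Set.finite_empty, by simp, ?_⟩
        intro z hzV hzY hyz _ e he hye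
        exact hR e he hye.1 (hconv y hyV z hzV e hye.1.le hye.2)
    have hleft : ∃ A' : Set L, A'.Finite ∧ (∀ a ∈ A', a < y) ∧ ∀ z ∈ V, z ∈ Y' → z < y → (∀ a ∈ A', a < z) → 
        ∀ e ∈ E, ¬ (e < y ∧ z ≤ e) := by
      by_cases hR : ∃ e1 ∈ E, e1 < y ∧ e1 ∈ V
      · obtain ⟨e1, he1, hye1, he1V⟩ := hR
        refine ⟨{e1}, Set.finite_singleton _, ?_, ?_⟩
        · intro b hb; rw [mem_singleton_iff.1 hb]; exact hye1
        · intro z hzV hzY hyz hze1 e he hye
          have hze1' : e1 < z := hze1 e1 rfl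
          rcases eq_or_lt_of_le hye.2 with h | h
          · subst h
            exact hVQ _ hzV ⟨Or.inl he, hzY⟩
          · have h3 := hpick e1 e ⟨z, ⟨hze1', h⟩, hzY⟩
            apply hVQ (pick e1 e)
            · exact hconv e1 he1V y hyV _ h3.1.1.le (h3.1.2.le.trans hye.1.le)
            · exact ⟨Or.inr ⟨(e1, e), ⟨he1, he⟩, rfl⟩, h3.2⟩
      · push Not at hR
        refine ⟨∅, Set.finite_empty, by simp, ?_⟩
        intro z hzV hzY hyz _ e he hye
        exact hR e he hye.1 (hconv z hzV y hyV e hye.2 hye.1.le)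
    obtain ⟨B', hB', hB'y, hB'z⟩ := hright
    obtain ⟨A', hA', hA'y, hA'z⟩ := hleft
    refine ⟨V ∩ {x | (∀ a ∈ A', a < x) ∧ (∀ b ∈ B', x < b)}, (isOpen_interval hA hB).inter 
      (isOpen_interval hA' hB'), ⟨hyV, hA'y, hB'y⟩, ?_⟩
    rintro z ⟨hzV, hz1, hz2⟩ hzY e he
    rcases lt_trichotomy y z with h | h | h
    · have h3 := hB'z z hzV hzY h hz2 e he
      have h4 : y ≠ e := fun h => hyE (h ▸ he)
      constructor
      · constructor
        · intro h5; exact h5.trans h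
        · intro h5
          by_contra h6
          exact h3 ⟨lt_of_le_of_ne (not_lt.1 h6) h4, h5.le⟩
      · constructor
        · intro h5
          by_contra h6
          exact h3 ⟨h5, not_lt.1 h6⟩
        · intro h5; exact h.trans h5
    · subst h
      exact ⟨Iff.rfl, Iff.rfl⟩
    · have h3 := hA'z z hzV hzY h hz1 e he
      have h4 : y ≠ e := fun h => hyE (h ▸ he)
      constructor
      · constructor
        · intro h5
          by_contra h6
          exact h3 ⟨h5, not_lt.1 h6⟩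
        · intro h5; exact h5.trans h
      · constructor
        · intro h5; exact h.trans h5
        · intro h5
          by_contra h6
          exact h3 ⟨lt_of_le_of_ne (not_lt.1 h6) h4.symm, h5.le⟩
  -- W and representatives
  let W : Set X := Y \ (π '' closure Q0)
  choose! V hVo hVy hVtype using hloc
  have hWY : ∀ z ∈ π ⁻¹' W, z ∈ Y' ∧ z ∉ closure Q0 := by
    intro z hz
    exact ⟨hz.1, fun h => hz.2 ⟨z, h, rfl⟩⟩
  obtain ⟨C, hC, hCsub, hcov⟩ := lindelof_preimage π hπ W V 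
    (fun z hz => ⟨hVo z (hWY z hz).1 (hWY z hz).2, hVy z (hWY z hz).1 (hWY z hz).2⟩)
  refine ⟨Subtype.val ⁻¹' (π '' (Q0 ∪ C)), ?_, ?_⟩
  · exact ((hQ0c.union hC).image π).preimage Subtype.val_injective
  · intro h h' hc hc' hh hh' hQ
    funext y
    by_cases hy : (y : X) ∈ π '' closure Q0
    · obtain ⟨z, hz, hzy⟩ := hy
      -- z is a limit of points of Q0 
      have hzY : z ∈ Y' := by rw [mem_preimage, hzy]; exact y.2
      -- work in the subtype Y'
      let h1 : Y' → ℝ := fun w => h ⟨π w, w.2⟩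
      let h2 : Y' → ℝ := fun w => h' ⟨π w, w.2⟩
      have hπY : Continuous (fun w : Y' => (⟨π w, w.2⟩ : Y)) := 
        Continuous.subtype_mk (hπ.comp continuous_subtype_val) _
      have hcl : (⟨z, hzY⟩ : Y') ∈ closure (Subtype.val ⁻¹' Q0 : Set Y') := by
        rw [IsInducing.subtypeVal.closure_eq_preimage_closure_image]
        show z ∈ closure (Subtype.val '' (Subtype.val ⁻¹' Q0 : Set Y'))
        have : Subtype.val '' (Subtype.val ⁻¹' Q0 : Set Y') = Q0 := by
          rw [Subtype.image_preimage_coe]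
          apply inter_eq_right.2
          exact inter_subset_right
        rw [this]
        exact hz
      have hclosed : IsClosed {w : Y' | h1 w = h2 w} := isClosed_eq (hc.comp hπY) (hc'.comp hπY)
      have hsub : (Subtype.val ⁻¹' Q0 : Set Y') ⊆ {w : Y' | h1 w = h2 w} := by
        intro w hw
        exact hQ _ ⟨w, Or.inl hw, rfl⟩
      have h3 : h1 ⟨z, hzY⟩ = h2 ⟨z, hzY⟩ := closure_minimal hsub hclosed hcl
      have h4 : (⟨π z, hzY⟩ : Y) = y := Subtype.ext hzy
      simp only [h1, h2, h4] at h3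
      exact h3
    · obtain ⟨z, hzy⟩ := hs y
      have hzW : z ∈ π ⁻¹' W := by
        rw [mem_preimage, hzy]
        exact ⟨y.2, hy⟩
      have h1 := hcov hzW
      simp only [mem_iUnion] at h1
      obtain ⟨c, hc, hzc⟩ := h1
      have hcW := hWY c (hCsub hc)
      have hzY := (hWY z hzW).1
      have h2 := hVtype c hcW.1 hcW.2 z hzc hzY
      have h3 : ∀ n, d n ⟨π c, hcW.1⟩ = d n ⟨π z, hzY⟩ := hEd c z hcW.1 hzY h2
      have h4 : (⟨π z, hzY⟩ : Y) = y := Subtype.ext hzy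
      have h5 := hQ ⟨π c, hcW.1⟩ ⟨c, Or.inr hc, rfl⟩
      rw [← h4, ← hh _ _ h3, ← hh' _ _ h3]
      exact h5

end LOTS

section LOTSmain

universe u

theorem exists_countable_tight {Y : Type u} [TopologicalSpace Y] [FirstCountableTopology Y]
    [HereditarilyLindelofSpace Y] (B : Set (Y → ℝ)) (hB : IsCompact B) (hc : ∀ f ∈ B, Continuous f) 
    (S : Set (Y → ℝ)) (hSB : S ⊆ B) (g : Y → ℝ) (hg : g ∈ closure S) : 
    ∃ d : ℕ → Y → ℝ, (∀ n, d n ∈ S) ∧ g ∈ closure (Set.range d) := by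
  have h := CCin_of_isCompact hB
  let C : Set (Y → ℝ) := {g | ∃ d : ℕ → Y → ℝ, (∀ n, d n ∈ S) ∧ g ∈ closure (Set.range d)}
  have hCB : C ⊆ B := by
    rintro g ⟨d, hd, hg⟩
    refine closure_minimal ?_ hB.isClosed hg
    rintro _ ⟨n, rfl⟩
    exact hSB (hd n)
  have hC : IsClosed C := by
    apply isClosed_of_seqClosed h hc hCB
    intro v hv g hg
    choose d hd hdv using hv
    let e : ℕ ≃ ℕ × ℕ := (Nat.pairEquiv).symm
    refine ⟨fun n => d (e n).1 (e n).2, fun n => hd _ _, ?_⟩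
    apply isClosed_closure.mem_of_tendsto hg
    refine Eventually.of_forall fun n => ?_
    refine closure_mono ?_ (hdv n)
    rintro _ ⟨k, rfl⟩
    exact ⟨e.symm (n, k), by simp⟩
  have hSC : S ⊆ C := fun g hg => ⟨fun _ => g, fun _ => hg, subset_closure ⟨0, rfl⟩⟩
  exact closure_minimal hSC hC hg

end LOTSmain

end Helper88.CpTheory
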