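import Mathlib
import Pool.Agent.Lib.Helper88.SuslinDefs

/-!
# Every Suslin tree yields a normalized one
-/

open Set

namespace Helper88.SuslinTree

section Normalize

variable {T : Type} [PartialOrder T]

theorem IsSuslinTree.comparable (hT : IsSuslinTree T) {a b t : T} (ha : a ≤ t) (hb : b ≤ t) :
    a ≤ b ∨ b ≤ a := by
  rcases eq_or_lt_of_le ha with rfl | ha
  · exact Or.inr hb
  rcases eq_or_lt_of_le hb with rfl | hb
  · exact Or.inl ha.le
  by_cases hab : a = b
  · exact Or.inl hab.le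
  exact (hT.predecessors t).1 ha hb hab

theorem IsSuslinTree.wf (hT : IsSuslinTree T) : WellFounded ((· < ·) : T → T → Prop) := by
  rw [RelEmbedding.wellFounded_iff_isEmpty]
  refine ⟨fun f => ?_⟩
  have h1 := (hT.predecessors (f 0)).2
  rw [Set.isWF_iff_no_descending_seq] at h1
  refine h1 (fun n => f (n+1)) ?_ ?_
  · intro a b hab
    exact f.map_rel_iff.2 (by simpa using hab)
  · intro n
    exact f.map_rel_iff.2 (by simp)

theorem IsSuslinTree.countable_Iic (hT : IsSuslinTree T) (t : T) : (Set.Iic t).Countable := by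
  apply hT.countable_chain
  intro a ha b hb _
  exact hT.comparable ha hb

/-- nodes with uncountably many extensions -/
def Big (T : Type) [PartialOrder T] : Set T := {t | ¬ (Set.Ici t).Countable}

theorem big_lower {s t : T} (h : s ≤ t) (ht : t ∈ Big T) : s ∈ Big T := by
  intro hs
  exact ht (hs.mono (Set.Ici_subset_Ici.2 h))

theorem IsSuslinTree.small_countable (hT : IsSuslinTree T) : ((Big T)ᶜ).Countable := by
  let M : Set T := {t | t ∉ Big T ∧ ∀ s < t, s ∈ Big T}
  have hM : M.Countable := by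
    apply hT.countable_antichain
    intro a ha b hb hab hle
    exact ha.1 (hb.2 a (lt_of_le_of_ne hle hab))
  have hsub : (Big T)ᶜ ⊆ ⋃ m ∈ M, Set.Ici m := by
    intro t ht
    obtain ⟨m, ⟨hm1, hm2⟩, hm3⟩ := hT.wf.has_min {s | s ≤ t ∧ s ∉ Big T} ⟨t, le_rfl, ht⟩
    simp only [mem_iUnion]
    refine ⟨m, ⟨hm2, fun s hs => ?_⟩, hm1⟩
    by_contra hcon
    exact hm3 s ⟨hs.le.trans hm1, hcon⟩ hs
  apply Set.Countable.mono hsub
  apply hM.biUnion
  intro m hm
  by_contra hcon
  exact hm.1 hcon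

theorem IsSuslinTree.split (hT : IsSuslinTree T) {t : T} (ht : t ∈ Big T) :
    ∃ v ∈ Big T, ∃ w ∈ Big T, t ≤ v ∧ t ≤ w ∧ ¬ v ≤ w ∧ ¬ w ≤ v := by
  by_contra hcon
  push Not at hcon
  apply ht
  have hchain : (Big T ∩ Set.Ici t).Countable := by
    apply hT.countable_chain
    intro a ha b hb _
    by_cases h : a ≤ b
    · exact Or.inl h
    · exact Or.inr (hcon a ha.1 b hb.1 ha.2 hb.2 h)
  apply (hchain.union hT.small_countable).mono
  intro x hx
  by_cases h : x ∈ Big T
  · exact Or.inl ⟨h, hx⟩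
  · exact Or.inr h

/-- the meets of incomparable pairs -/
def Meets (T : Type) [PartialOrder T] : Type := 
  {σ : Set T // ∃ t ∈ Big T, ∃ u ∈ Big T, ¬ t ≤ u ∧ ¬ u ≤ t ∧ σ = Set.Iic t ∩ Set.Iic u}

instance : PartialOrder (Meets T) := inferInstanceAs (PartialOrder {σ : Set T // _})

theorem Meets.le_def (σ τ : Meets T) : σ ≤ τ ↔ σ.1 ⊆ τ.1 := Iff.rfl

theorem Meets.lower (σ : Meets T) {a b : T} (h : a ≤ b) (hb : b ∈ σ.1) : a ∈ σ.1 := by
  obtain ⟨s, t, ht, u, hu, h1, h2, rfl⟩ := σ
  exact ⟨h.trans hb.1, h.trans hb.2⟩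

theorem Meets.big (σ : Meets T) {a : T} (ha : a ∈ σ.1) : a ∈ Big T := by
  obtain ⟨s, t, ht, u, hu, h1, h2, rfl⟩ := σ
  exact big_lower ha.1 ht

theorem Meets.chain (hT : IsSuslinTree T) (σ : Meets T) {a b : T} (ha : a ∈ σ.1) (hb : b ∈ σ.1) : a ≤ b ∨ b ≤ a := by
  obtain ⟨s, t, ht, u, hu, h1, h2, rfl⟩ := σ
  exact hT.comparable ha.1 hb.1

theorem Meets.exists_next (hT : IsSuslinTree T) (σ : Meets T) : ∃ c ∈ Big T, ∃ c' ∈ Big T, 
    ¬ c ≤ c' ∧ ¬ c' ≤ c ∧ Set.Iio c = σ.1 ∧ Set.Iio c' = σ.1 := by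
  obtain ⟨s, t, ht, u, hu, h1, h2, rfl⟩ := σ
  have key : ∀ t u : T, ¬ t ≤ u → ∃ c, c ≤ t ∧ ¬ c ≤ u ∧ Set.Iio c = Set.Iic t ∩ Set.Iic u := by
    intro t u htu
    obtain ⟨c, ⟨hc1, hc2⟩, hc3⟩ := hT.wf.has_min {x | x ≤ t ∧ ¬ x ≤ u} ⟨t, le_rfl, htu⟩
    refine ⟨c, hc1, hc2, ?_⟩
    apply Set.Subset.antisymm
    · intro x hx
      refine ⟨hx.le.trans hc1, ?_⟩
      by_contra hxu
      exact hc3 x ⟨hx.le.trans hc1, hxu⟩ hx
    · rintro x ⟨hx1, hx2⟩
      rcases hT.comparable hx1 hc1 with h | h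
      · rcases eq_or_lt_of_le h with rfl | h
        · exact (hc2 hx2).elim
        · exact h
      · exact (hc2 (h.trans hx2)).elim
  obtain ⟨c, hc1, hc2, hc3⟩ := key t u h1
  obtain ⟨c', hc1', hc2', hc3'⟩ := key u t h2
  refine ⟨c, big_lower hc1 ht, c', big_lower hc1' hu, ?_, ?_, hc3, ?_⟩
  · intro h; exact hc2 (h.trans hc1')
  · intro h; exact hc2' (h.trans hc1)
  · rw [hc3', Set.inter_comm]

theorem Meets.comparable (hT : IsSuslinTree T) {σ σ' τ : Meets T} (h : σ ≤ τ) (h' : σ' ≤ τ) : σ ≤ σ' ∨ σ' ≤ σ := by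
  by_contra hcon
  push Not at hcon
  obtain ⟨a, ha, ha'⟩ := Set.not_subset.1 hcon.1
  obtain ⟨b, hb, hb'⟩ := Set.not_subset.1 hcon.2
  rcases τ.chain hT (h ha) (h' hb) with hab | hab
  · exact ha' (σ'.lower hab hb)
  · exact hb' (σ.lower hab ha)

theorem Meets.wf (hT : IsSuslinTree T) : WellFounded ((· < ·) : Meets T → Meets T → Prop) := by
  rw [RelEmbedding.wellFounded_iff_isEmpty]
  refine ⟨fun f => ?_⟩
  have hlt : ∀ m n : ℕ, m < n → f n < f m := fun m n h => f.map_rel_iff.2 h
  have h1 : ∀ n, ∃ a, a ∈ (f n).1 ∧ a ∉ (f (n+1)).1 := by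
    intro n
    obtain ⟨a, ha, ha'⟩ := Set.not_subset.1 (hlt n (n+1) (Nat.lt_succ_self n)).2
    exact ⟨a, ha, ha'⟩
  choose a ha ha' using h1
  have hdesc : ∀ n, a (n+1) < a n := by
    intro n
    have h2 : (f (n+1)).1 ⊆ (f n).1 := (hlt n (n+1) (Nat.lt_succ_self n)).1
    rcases (f n).chain hT (h2 (ha (n+1))) (ha n) with h | h
    · refine lt_of_le_of_ne h ?_
      intro h3
      apply ha' n
      rw [← h3]
      exact ha (n+1)
    · exact (ha' n ((f (n+1)).lower h (ha (n+1)))).elim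
  have hanti : StrictAnti a := strictAnti_nat_of_succ_lt hdesc
  exact (RelEmbedding.wellFounded_iff_isEmpty.1 hT.wf).false 
    (RelEmbedding.ofMonotone a (fun m n h => hanti h) : ((· > ·) : ℕ → ℕ → Prop) ↪r ((· < ·) : T → T → Prop))


theorem Meets.exists_glb (hT : IsSuslinTree T) (σ τ : Meets T) : ∃ m : Meets T, IsGLB {σ, τ} m := by
  by_cases h1 : σ ≤ τ
  · refine ⟨σ, ?_⟩
    constructor
    · intro x hx
      rcases hx with rfl | hx
      · exact le_rfl
      · rw [mem_singleton_iff.1 hx]; exact h1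
    · intro x hx
      exact hx (by simp)
  by_cases h2 : τ ≤ σ
  · refine ⟨τ, ?_⟩
    constructor
    · intro x hx
      rcases hx with rfl | hx
      · exact h2
      · rw [mem_singleton_iff.1 hx]
    · intro x hx
      exact hx (by simp)
  obtain ⟨a, ha, ha'⟩ := Set.not_subset.1 h1
  obtain ⟨b, hb, hb'⟩ := Set.not_subset.1 h2
  have hab : ¬ a ≤ b := fun h => ha' (τ.lower h hb)
  have hba : ¬ b ≤ a := fun h => hb' (σ.lower h ha)
  have hEq : σ.1 ∩ τ.1 = Set.Iic a ∩ Set.Iic b := by
    apply Set.Subset.antisymm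
    · rintro x ⟨hx1, hx2⟩
      constructor
      · rcases σ.chain hT hx1 ha with h | h
        · exact h
        · exact (ha' (τ.lower h hx2)).elim
      · rcases τ.chain hT hx2 hb with h | h
        · exact h
        · exact (hb' (σ.lower h hx1)).elim
    · rintro x ⟨hx1, hx2⟩
      exact ⟨σ.lower hx1 ha, τ.lower hx2 hb⟩
  refine ⟨⟨σ.1 ∩ τ.1, a, σ.big ha, b, τ.big hb, hab, hba, hEq⟩, ?_, ?_⟩
  · intro x hx
    rcases hx with rfl | hx
    · exact inter_subset_left
    · rw [mem_singleton_iff.1 hx]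
      exact inter_subset_right
  · intro x hx
    have hx1 : x ≤ σ := hx (by simp)
    have hx2 : x ≤ τ := hx (by simp)
    exact subset_inter hx1 hx2

theorem Meets.exists_cover (hT : IsSuslinTree T) (σ : Meets T) {c : T} (hc : c ∈ Big T) (hcσ : Set.Iio c = σ.1) :
    ∃ τ : Meets T, σ ⋖ τ ∧ c ∈ τ.1 := by
  obtain ⟨v, hv, w, hw, hcv, hcw, hvw, hwv⟩ := hT.split hc
  obtain ⟨τ, hcτ, hτmin⟩ := (Meets.wf hT).has_min {τ : Meets T | c ∈ τ.1} 
    ⟨⟨Set.Iic v ∩ Set.Iic w, v, hv, w, hw, hvw, hwv, rfl⟩, hcv, hcw⟩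
  have hcτ' : c ∈ τ.1 := hcτ
  refine ⟨τ, ⟨?_, ?_⟩, hcτ'⟩
  · constructor
    · show σ.1 ⊆ τ.1
      rw [← hcσ]
      intro x hx
      exact τ.lower (le_of_lt hx) hcτ'
    · intro h
      have : c ∈ σ.1 := h hcτ'
      rw [← hcσ] at this
      exact lt_irrefl _ this
  · intro ρ hσρ hρτ
    obtain ⟨x, hx, hx'⟩ := Set.not_subset.1 hσρ.2
    apply hτmin ρ _ hρτ
    show c ∈ ρ.1
    rcases τ.chain hT (hρτ.1 hx) hcτ' with h | h
    · rcases eq_or_lt_of_le h with h | h
      · rw [← h]; exact hx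
      · exact (hx' (by rw [← hcσ]; exact h)).elim
    · exact ρ.lower h hx

theorem Meets.two_covers (hT : IsSuslinTree T) (σ : Meets T) : 
    ∃ τ τ' : Meets T, σ ⋖ τ ∧ σ ⋖ τ' ∧ τ ≠ τ' := by
  obtain ⟨c, hc, c', hc', h1, h2, h3, h4⟩ := σ.exists_next hT
  obtain ⟨τ, hτ, hcτ⟩ := σ.exists_cover hT hc h3
  obtain ⟨τ', hτ', hcτ'⟩ := σ.exists_cover hT hc' h4
  refine ⟨τ, τ', hτ, hτ', ?_⟩
  rintro rfl
  rcases τ.chain hT hcτ hcτ' with h | h
  · exact h1 h
  · exact h2 h

theorem Meets.countable_chain (hT : IsSuslinTree T) (C : Set (Meets T)) (hC : IsChain (· ≤ ·) C) : C.Countable := by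
  let U : Set T := ⋃ σ ∈ C, σ.1
  have hU : U.Countable := by
    apply hT.countable_chain
    intro a ha b hb _
    simp only [U, mem_iUnion] at ha hb
    obtain ⟨σ, hσ, ha⟩ := ha
    obtain ⟨τ, hτ, hb⟩ := hb
    rcases hC.total hσ hτ with h | h
    · exact τ.chain hT (h ha) hb
    · exact σ.chain hT ha (h hb)
  have h1 : Subtype.val '' C ⊆ ((fun m => Set.Iio m ∩ U) '' U) ∪ {U} := by
    rintro _ ⟨σ, hσ, rfl⟩
    have hσU : σ.1 ⊆ U := fun x hx => mem_biUnion hσ hx
    by_cases h : U ⊆ σ.1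
    · right
      exact Set.Subset.antisymm hσU h
    · left
      obtain ⟨m, ⟨hm1, hm2⟩, hm3⟩ := hT.wf.has_min (U \ σ.1) (Set.sdiff_nonempty.2 h)
      refine ⟨m, hm1, ?_⟩
      apply Set.Subset.antisymm
      · rintro x ⟨hx1, hx2⟩
        by_contra hcon
        exact hm3 x ⟨hx2, hcon⟩ hx1
      · intro x hx
        refine ⟨?_, hσU hx⟩
        -- compare x and m : both in some member of the chain
        obtain ⟨τ, hτ, hmτ⟩ : ∃ τ ∈ C, m ∈ τ.1 := by simpa [U] using hm1
        rcases hC.total hσ hτ with h' | h'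
        · rcases Meets.chain hT τ (h' hx) hmτ with h'' | h''
          · rcases eq_or_lt_of_le h'' with h3 | h3
            · subst h3; exact (hm2 hx).elim
            · exact h3
          · exact (hm2 (Meets.lower σ h'' hx)).elim
        · exact (hm2 (h' hmτ)).elim
  have h2 : (Subtype.val '' C).Countable := ((hU.image _).union (Set.countable_singleton _)).mono h1
  exact Set.countable_of_injective_of_countable_image Subtype.val_injective.injOn h2

theorem Meets.countable_antichain (hT : IsSuslinTree T) (A : Set (Meets T)) (hA : IsAntichain (· ≤ ·) A) : 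
    A.Countable := by
  choose c _ _ _ _ _ hc _ using fun σ : Meets T => σ.exists_next hT
  have hinj : Function.Injective c := by
    intro σ τ h
    apply Subtype.ext
    rw [← hc σ, ← hc τ, h]
  have h1 : (c '' A).Countable := by
    apply hT.countable_antichain
    rintro _ ⟨σ, hσ, rfl⟩ _ ⟨τ, hτ, rfl⟩ hne hle
    have hne' : σ ≠ τ := fun h => hne (by rw [h])
    apply hA hσ hτ hne'
    show σ.1 ⊆ τ.1
    rw [← hc σ, ← hc τ]
    exact Set.Iio_subset_Iio hle
  exact Set.countable_of_injective_of_countable_image hinj.injOn h1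

theorem Meets.uncountable (hT : IsSuslinTree T) : ¬ (Set.univ : Set (Meets T)).Countable := by
  intro hcount
  have h1 : Big T ⊆ ⋃ σ ∈ (Set.univ : Set (Meets T)), σ.1 := by
    intro t ht
    obtain ⟨v, hv, w, hw, hcv, hcw, hvw, hwv⟩ := hT.split ht
    simp only [mem_iUnion]
    exact ⟨⟨Set.Iic v ∩ Set.Iic w, v, hv, w, hw, hvw, hwv, rfl⟩, mem_univ _, hcv, hcw⟩
  have h2 : (Big T).Countable := by
    apply Set.Countable.mono h1
    apply hcount.biUnion
    intro σ _
    apply hT.countable_chain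
    intro a ha b hb _
    exact σ.chain hT ha hb
  apply hT.uncountable
  rw [← Set.union_compl_self (Big T)]
  exact h2.union hT.small_countable

/-- from a meet-closed tree with two covers everywhere to a normal one. -/
theorem normal_of_meets {S : Type} [PartialOrder S] 
    (hcomp : ∀ a b t : S, a ≤ t → b ≤ t → a ≤ b ∨ b ≤ a)
    (hwf : WellFounded ((· < ·) : S → S → Prop))
    (hglb : ∀ a b : S, ∃ m, IsGLB {a, b} m)
    (hcov : ∀ a : S, ∃ b b' : S, a ⋖ b ∧ a ⋖ b' ∧ b ≠ b')
    (hunc : ¬ (Set.univ : Set S).Countable)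
    (hch : ∀ C : Set S, IsChain (· ≤ ·) C → C.Countable)
    (hanti : ∀ A : Set S, IsAntichain (· ≤ ·) A → A.Countable) :
    ∃ (T' : Type) (_ : PartialOrder T'), IsNormalSuslinTree T' := by
  choose ch oth hcv hov hne using hcov
  let N : Set S := {z | ∀ x, x ⋖ z → z ≠ ch x}
  -- a cover of x different from ch x is in N
  have hcovN : ∀ x w : S, x ⋖ w → w ≠ ch x → w ∈ N := by
    intro x w hxw hw y hyw
    have hxy : y = x := by
      rcases hcomp x y w hxw.le hyw.le with h | h
      · rcases eq_or_lt_of_le h with h | h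
        · exact h.symm
        · exact (hxw.2 h hyw.lt).elim
      · rcases eq_or_lt_of_le h with h | h
        · exact h
        · exact (hyw.2 h hxw.lt).elim
    rw [hxy]; exact hw
  -- comparison below a cover
  have hbelow : ∀ x w z : S, x ⋖ w → z < w → z ≤ x := by
    intro x w z hxw hzw
    rcases hcomp x z w hxw.le hzw.le with h | h
    · rcases eq_or_lt_of_le h with h | h
      · exact h.symm.le
      · exact (hxw.2 h hzw).elim
    · exact h
  refine ⟨N, inferInstance, ?_⟩
  have hwfN : WellFounded ((· < ·) : N → N → Prop) := 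
    (InvImage.wf (fun z : N => (z : S)) hwf)
  refine ⟨?_, ?_, ?_, ?_, ?_, ?_, ?_⟩
  · intro t
    constructor
    · intro a ha b hb _
      exact hcomp a.1 b.1 t.1 (le_of_lt ha) (le_of_lt hb)
    · have : WellFoundedLT N := ⟨hwfN⟩
      exact Set.IsWF.of_wellFoundedLT (Set.Iio t)
  · -- root
    have hne : Nonempty S := by
      by_contra hcon
      rw [not_nonempty_iff] at hcon
      exact hunc Set.countable_univ
    obtain ⟨r, -, hr⟩ := hwf.has_min (Set.univ : Set S) ⟨hne.some, mem_univ _⟩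
    have hrmin : ∀ s : S, r ≤ s := by
      intro s
      obtain ⟨m, hm⟩ := hglb r s
      have h1 : m ≤ r := hm.1 (by simp)
      have h2 : m ≤ s := hm.1 (by simp)
      rcases eq_or_lt_of_le h1 with h | h
      · rw [← h]; exact h2
      · exact (hr m (mem_univ _) h).elim
    refine ⟨⟨r, ?_⟩, fun t => hrmin t.1⟩
    intro x hx
    exact (hr x (mem_univ _) hx.lt).elim
  · -- infinitely many covers
    intro t
    let sp : ℕ → S := fun n => Nat.rec t.1 (fun _ x => ch x) n
    have hsp : ∀ n, sp (n+1) = ch (sp n) := fun n => rfl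
    have hsp0 : sp 0 = t.1 := rfl
    have hspcov : ∀ n, sp n ⋖ sp (n+1) := fun n => by rw [hsp]; exact hcv _
    have hspmono : StrictMono sp := strictMono_nat_of_lt_succ fun n => (hspcov n).lt
    -- a cover different from ch
    have hex : ∀ n, ∃ w, sp n ⋖ w ∧ w ≠ ch (sp n) := by
      intro n
      exact ⟨oth (sp n), hov _, (hne _).symm⟩
    choose w hw1 hw2 using hex
    have hwN : ∀ n, w n ∈ N := fun n => hcovN _ _ (hw1 n) (hw2 n)
    have hspine : ∀ n z, t.1 < z → z ≤ sp n → z ∉ N := by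
      intro n
      induction n with
      | zero => intro z h1 h2; exact absurd h1 (not_lt_of_ge h2)
      | succ n ih =>
        intro z h1 h2
        rcases eq_or_lt_of_le h2 with h | h
        · intro hzN
          apply hzN (sp n)
          · rw [h]; exact hspcov n
          · rw [h, hsp]
        · exact ih z h1 (hbelow _ _ _ (hspcov n) h)
    have hwinj : Function.Injective w := by
      have key : ∀ j k, j < k → w j ≠ w k := by
        intro j k hjk h
        have h1 : sp (j+1) ≤ sp k := hspmono.monotone hjk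
        have h2 : sp (j+1) < w j := by rw [h]; exact h1.trans_lt (hw1 k).lt
        exact (hw1 j).2 (hspcov j).lt h2
      intro j k h
      by_contra hne
      rcases lt_or_gt_of_ne hne with h' | h'
      · exact key j k h' h
      · exact key k j h' h.symm
    have hrange : Set.range (fun n => (⟨w n, hwN n⟩ : N)) ⊆ {u : N | t ⋖ u} := by
      rintro _ ⟨n, rfl⟩
      constructor
      · show t.1 < w n
        have : t.1 ≤ sp n := by rw [← hsp0]; exact hspmono.monotone (Nat.zero_le n)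
        exact this.trans_lt (hw1 n).lt
      · intro z hz1 hz2
        exact hspine n z.1 hz1 (hbelow _ _ _ (hw1 n) hz2) z.2
    apply Set.Infinite.mono hrange
    apply Set.infinite_range_of_injective
    intro a b hab
    exact hwinj (congrArg Subtype.val hab)
  · -- limit uniqueness
    intro t u htu hlim
    by_contra hne
    obtain ⟨m, hm⟩ := hglb t.1 u.1
    have hmt : m ≤ t.1 := hm.1 (by simp)
    have hmu : m ≤ u.1 := hm.1 (by simp)
    have hmlt : m < t.1 := by
      refine lt_of_le_of_ne hmt ?_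
      intro h
      have h1 : t.1 ≤ u.1 := by rw [← h]; exact hmu
      rcases eq_or_lt_of_le h1 with h2 | h2
      · exact hne (Subtype.ext h2)
      · have : t ∈ Set.Iio u := h2
        rw [← htu] at this
        exact lt_irrefl _ this
    have hPm : ∀ p : N, p < t → p.1 ≤ m := by
      intro p hp
      have hpu : p < u := by
        have : p ∈ Set.Iio u := by rw [← htu]; exact hp
        exact this
      apply hm.2
      intro y hy
      rcases hy with rfl | hy
      · exact le_of_lt hp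
      · rw [mem_singleton_iff.1 hy]; exact le_of_lt hpu
    obtain ⟨m', ⟨hm'1, hm'2⟩, hm'3⟩ := hwf.has_min {x | x ≤ m ∧ ∀ p : N, p < t → p.1 ≤ x} ⟨m, le_rfl, hPm⟩
    have hm't : m' < t.1 := hm'1.trans_lt hmlt
    have hm'N : m' ∈ N := by
      intro x hx hxm
      have h1 : ¬ (∀ p : N, p < t → p.1 ≤ x) := fun h => hm'3 x ⟨hx.le.trans hm'1, h⟩ hx.lt
      push Not at h1
      obtain ⟨p, hpt, hpx⟩ := h1
      have hpm' : p.1 ≤ m' := hm'2 p hpt
      have hpeq : p.1 = m' := by
        rcases eq_or_lt_of_le hpm' with h | h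
        · exact h
        · exact (hpx (hbelow _ _ _ hx h)).elim
      obtain ⟨s', hs'1, hs'2⟩ := hlim p hpt
      have h3 := hm'2 s' hs'2
      have h4 : p.1 < s'.1 := hs'1
      rw [hpeq] at h4
      exact absurd h4 (not_lt_of_ge h3)
    obtain ⟨s', hs'1, hs'2⟩ := hlim ⟨m', hm'N⟩ hm't
    have h3 := hm'2 s' hs'2
    have h4 : m' < s'.1 := hs'1
    exact absurd h4 (not_lt_of_ge h3)
  · -- uncountable
    intro hcount
    apply hunc
    have hsub : (Set.univ : Set S) ⊆ ⋃ n ∈ (Set.univ : Set N), Set.Iic n.1 := by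
      intro z _
      simp only [mem_iUnion]
      exact ⟨⟨oth z, hcovN z _ (hov z) (hne z).symm⟩, mem_univ _, (hov z).le⟩
    apply Set.Countable.mono hsub
    apply hcount.biUnion
    intro n _
    apply hch
    intro a ha b hb _
    exact hcomp a b n.1 ha hb
  · intro C hC
    have h1 : (Subtype.val '' C).Countable := by
      apply hch
      rintro _ ⟨a, ha, rfl⟩ _ ⟨b, hb, rfl⟩ hab
      exact hC ha hb (fun h => hab (by rw [h]))
    exact Set.countable_of_injective_of_countable_image Subtype.val_injective.injOn h1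
  · intro A hA
    have h1 : (Subtype.val '' A).Countable := by
      apply hanti
      rintro _ ⟨a, ha, rfl⟩ _ ⟨b, hb, rfl⟩ hab
      exact hA ha hb (fun h => hab (by rw [h]))
    exact Set.countable_of_injective_of_countable_image Subtype.val_injective.injOn h1

theorem exists_normal (hT : IsSuslinTree T) : ∃ (T' : Type) (_ : PartialOrder T'), IsNormalSuslinTree T' :=
  normal_of_meets (S := Meets T) (fun _ _ _ h h' => Meets.comparable hT h h') (Meets.wf hT) (Meets.exists_glb hT)
    (Meets.two_covers hT) (Meets.uncountable hT) (Meets.countable_chain hT) (Meets.countable_antichain hT)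

end Normalize


end Helper88.SuslinTree
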