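import Mathlib
import Pool.Agent.Lib.Helper88.SuslinDefs
import Pool.Agent.Lib.Helper88.CpDefs

/-!
# The path space of a Suslin tree and function spaces over it
-/

open Set Filter Topology Cardinal Helper88.CpTheory

namespace Helper88.SuslinTree

section Sep

/-- countable orthogonal families can be separated -/
theorem separation_nat (I J : ℕ → Set ℕ) (h : ∀ i j, (I i ∩ J j).Finite) :
    ∃ S : Set ℕ, (∀ i, (I i \ S).Finite) ∧ (∀ j, (S ∩ J j).Finite) := by
  refine ⟨⋃ n, (I n \ ⋃ k ∈ Finset.range (n+1), J k), fun i => ?_, fun j => ?_⟩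
  · have hfin : (⋃ k ∈ Finset.range (i+1), (I i ∩ J k)).Finite := by
      apply Set.Finite.biUnion (Finset.finite_toSet _)
      intro k _; exact h i k
    apply hfin.subset
    rintro x ⟨hx, hx'⟩
    by_contra hcon
    apply hx'
    simp only [mem_iUnion] at hcon ⊢
    refine ⟨i, hx, ?_⟩
    simp only [mem_iUnion]
    rintro ⟨k, hk, hxk⟩
    exact hcon ⟨k, hk, hx, hxk⟩
  · have hfin : (⋃ n ∈ Finset.range j, (I n ∩ J j)).Finite := by
      apply Set.Finite.biUnion (Finset.finite_toSet _)
      intro k _; exact h k j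
    apply hfin.subset
    rintro x ⟨hx, hx'⟩
    simp only [mem_iUnion] at hx ⊢
    obtain ⟨n, hn, hn'⟩ := hx
    refine ⟨n, ?_, hn, hx'⟩
    by_contra hlt
    simp only [Finset.mem_range, not_lt] at hlt
    apply hn'
    simp only [mem_iUnion]
    exact ⟨j, Finset.mem_range.2 (by omega), hx'⟩

theorem separation {ι κ : Type*} [Countable ι] [Countable κ] (I : ι → Set ℕ) (J : κ → Set ℕ)
    (h : ∀ i j, (I i ∩ J j).Finite) :
    ∃ S : Set ℕ, (∀ i, (I i \ S).Finite) ∧ (∀ j, (S ∩ J j).Finite) := by
  classical
  rcases isEmpty_or_nonempty ι with hι | hι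
  · exact ⟨∅, fun i => (hι.false i).elim, fun j => by simp⟩
  rcases isEmpty_or_nonempty κ with hκ | hκ
  · exact ⟨Set.univ, fun i => by simp, fun j => (hκ.false j).elim⟩
  obtain ⟨f, hf⟩ := exists_surjective_nat ι
  obtain ⟨g, hg⟩ := exists_surjective_nat κ
  obtain ⟨S, h1, h2⟩ := separation_nat (fun n => I (f n)) (fun n => J (g n)) (fun i j => h _ _)
  refine ⟨S, fun i => ?_, fun j => ?_⟩
  · obtain ⟨n, rfl⟩ := hf i; exact h1 n
  · obtain ⟨n, rfl⟩ := hg j; exact h2 n

/-- a countably generated proper ideal has an orthogonal infinite set -/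
theorem exists_orthogonal_nat (A : ℕ → Set ℕ) (h : ∀ n, (⋃ k ∈ Finset.range n, A k)ᶜ.Infinite) :
    ∃ E : Set ℕ, E.Infinite ∧ ∀ n, (E ∩ A n).Finite := by
  -- choose strictly increasing sequence e n ∉ ⋃ k < n, A k
  have hch : ∀ n m : ℕ, ∃ x, m < x ∧ x ∈ (⋃ k ∈ Finset.range n, A k)ᶜ := by
    intro n m
    obtain ⟨x, hx, hx'⟩ := (h n).exists_gt m
    exact ⟨x, hx', hx⟩
  choose f hf1 hf2 using hch
  let e : ℕ → ℕ := fun n => Nat.rec (f 0 0) (fun n en => f (n+1) en) n
  have he : ∀ n, e (n+1) = f (n+1) (e n) := fun n => rfl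
  have hmono : StrictMono e := strictMono_nat_of_lt_succ (fun n => by rw [he]; exact hf1 _ _)
  have hmem : ∀ n, e n ∈ (⋃ k ∈ Finset.range n, A k)ᶜ := by
    intro n
    cases n with
    | zero => exact hf2 _ _
    | succ n => rw [he]; exact hf2 _ _
  refine ⟨range e, Set.infinite_range_of_injective hmono.injective, fun n => ?_⟩
  apply ((Finset.range (n+1)).finite_toSet.image e).subset
  rintro x ⟨⟨m, rfl⟩, hx⟩
  refine ⟨m, ?_, rfl⟩
  by_contra hlt
  simp only [Finset.coe_range, mem_Iio, not_lt] at hlt
  apply hmem m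
  simp only [mem_iUnion]
  exact ⟨n, Finset.mem_range.2 (by omega), hx⟩

theorem exists_orthogonal {T : Type*} (D : Set T) (hD : D.Countable) (A : T → Set ℕ)
    (h : ∀ F : Finset T, (F : Set T) ⊆ D → (⋃ t ∈ F, A t)ᶜ.Infinite) :
    ∃ E : Set ℕ, E.Infinite ∧ ∀ t ∈ D, (E ∩ A t).Finite := by
  classical
  rcases D.eq_empty_or_nonempty with rfl | hne
  · exact ⟨Set.univ, Set.infinite_univ, by simp⟩
  obtain ⟨g, rfl⟩ := hD.exists_eq_range hne
  obtain ⟨E, hE, hE'⟩ := exists_orthogonal_nat (fun n => A (g n)) (by
    intro n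
    have := h ((Finset.range n).image g) (by
      intro t ht
      simp only [Finset.coe_image, mem_image] at ht
      obtain ⟨k, _, rfl⟩ := ht
      exact mem_range_self k)
    simpa using this)
  refine ⟨E, hE, ?_⟩
  rintro t ⟨n, rfl⟩
  exact hE' n

/-- splitting an infinite set of naturals. -/
theorem exists_split (E : Set ℕ) (hE : E.Infinite) :
    ∃ E0 E1 : Set ℕ, E0.Infinite ∧ E1.Infinite ∧ Disjoint E0 E1 ∧ E0 ⊆ E ∧ E1 ⊆ E := by
  classical
  let e := Nat.nth (fun n => n ∈ E)
  have hinj : Function.Injective e := Nat.nth_injective hE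
  have hmem : ∀ n, e n ∈ E := fun n => Nat.nth_mem_of_infinite hE n
  refine ⟨range (fun n => e (2*n)), range (fun n => e (2*n+1)), ?_, ?_, ?_, ?_, ?_⟩
  · exact Set.infinite_range_of_injective (fun a b hab => by
      have := hinj hab; omega)
  · exact Set.infinite_range_of_injective (fun a b hab => by
      have := hinj hab; omega)
  · rw [Set.disjoint_left]
    rintro x ⟨a, rfl⟩ ⟨b, hb⟩
    have := hinj hb; omega
  · rintro x ⟨a, rfl⟩; exact hmem _
  · rintro x ⟨a, rfl⟩; exact hmem _

end Sep

section Tree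

variable {T : Type} [PartialOrder T]

theorem IsNormalSuslinTree.comparable (hT : IsNormalSuslinTree T) {a b t : T} (ha : a ≤ t) (hb : b ≤ t) :
    a ≤ b ∨ b ≤ a := by
  rcases eq_or_lt_of_le ha with rfl | ha
  · exact Or.inr hb
  rcases eq_or_lt_of_le hb with rfl | hb
  · exact Or.inl ha.le
  by_cases hab : a = b
  · exact Or.inl hab.le
  exact (hT.predecessors t).1 ha hb hab

theorem IsNormalSuslinTree.wf (hT : IsNormalSuslinTree T) : WellFounded ((· < ·) : T → T → Prop) := by
  rw [RelEmbedding.wellFounded_iff_isEmpty]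
  refine ⟨fun f => ?_⟩
  have h1 := (hT.predecessors (f 0)).2
  rw [Set.isWF_iff_no_descending_seq] at h1
  refine h1 (fun n => f (n+1)) ?_ ?_
  · intro a b hab
    exact f.map_rel_iff.2 (by simpa using hab)
  · intro n
    exact f.map_rel_iff.2 (by simp)

theorem IsNormalSuslinTree.countable_Iic (hT : IsNormalSuslinTree T) (t : T) : (Set.Iic t).Countable := by
  apply hT.countable_chain
  intro a ha b hb _
  exact hT.comparable ha hb

theorem IsNormalSuslinTree.exists_glb (hT : IsNormalSuslinTree T) (t u : T) :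
    ∃ m, IsGLB {t, u} m := by
  by_cases htu : t ≤ u
  · refine ⟨t, ?_⟩
    constructor
    · intro x hx
      rcases hx with rfl | hx
      · exact le_rfl
      · rw [mem_singleton_iff.1 hx]; exact htu
    · intro x hx
      exact hx (by simp)
  by_cases hut : u ≤ t
  · refine ⟨u, ?_⟩
    constructor
    · intro x hx
      rcases hx with rfl | hx
      · exact hut
      · rw [mem_singleton_iff.1 hx]
    · intro x hx
      exact hx (by simp)
  -- incomparable
  by_contra hcon
  push Not at hcon
  obtain ⟨r, hr⟩ := hT.exists_least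
  -- t' = min of Iic t \ C
  have hwf := hT.wf
  have key : ∀ a b : T, ¬ a ≤ b → ∃ a', a' ≤ a ∧ ¬ a' ≤ b ∧ ∀ x, x < a' ↔ (x ≤ a ∧ x ≤ b) := by
    intro a b hab
    obtain ⟨a', ⟨ha1, ha2⟩, ha3⟩ := hwf.has_min {x | x ≤ a ∧ ¬ x ≤ b} ⟨a, le_rfl, hab⟩
    refine ⟨a', ha1, ha2, fun x => ⟨fun hx => ?_, fun hx => ?_⟩⟩
    · refine ⟨hx.le.trans ha1, ?_⟩
      by_contra hxb
      exact ha3 x ⟨hx.le.trans ha1, hxb⟩ hx
    · rcases hT.comparable hx.1 ha1 with h | h
      · rcases eq_or_lt_of_le h with rfl | h
        · exact (ha2 hx.2).elim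
        · exact h
      · exact (ha2 (h.trans hx.2)).elim
  obtain ⟨t', ht1, ht2, ht3⟩ := key t u htu
  obtain ⟨u', hu1, hu2, hu3⟩ := key u t hut
  have hEq : Set.Iio t' = Set.Iio u' := by
    ext x
    simp only [mem_Iio, ht3, hu3, and_comm]
  have : t' = u' := by
    apply hT.limit_unique t' u' hEq
    intro s hs
    by_contra hno
    push Not at hno
    apply hcon s
    have hs' := (ht3 s).1 hs
    constructor
    · intro x hx
      rcases hx with rfl | hx
      · exact hs'.1
      · rw [mem_singleton_iff.1 hx]; exact hs'.2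
    · intro x hx
      have hx1 : x ≤ t := hx (by simp)
      have hx2 : x ≤ u := hx (by simp)
      rcases hT.comparable hx1 hs'.1 with h | h
      · exact h
      · rcases eq_or_lt_of_le h with rfl | h
        · exact le_rfl
        · exact (hno x h ((ht3 x).2 ⟨hx1, hx2⟩)).elim
  rw [this] at ht2
  exact ht2 hu1

/-- `T` carries a well-founded, total enumeration order with countable initial segments, extending `<`. -/
theorem IsNormalSuslinTree.exists_enum (hT : IsNormalSuslinTree T) :
    ∃ r : T → T → Prop, WellFounded r ∧ (∀ a b, r a b ∨ a = b ∨ r b a) ∧ 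
      (∀ a b c, r a b → r b c → r a c) ∧
      (∀ a b, a < b → r a b) ∧ (∀ t, {s | r s t}.Countable) ∧
      (∀ a b c, a ≤ b → r b c → r a c) := by
  classical
  have : WellFoundedLT T := ⟨hT.wf⟩
  let rk : T → Ordinal.{0} := IsWellFounded.rank (α := T) (· < ·)
  have hrk : ∀ a b : T, a < b → rk a < rk b := fun a b h => IsWellFounded.rank_lt_of_rel h
  -- levels are countable
  have hlev : ∀ o : Ordinal, {t | rk t = o}.Countable := by
    intro o
    apply hT.countable_antichain
    intro a ha b hb hab hle
    have := hrk a b (lt_of_le_of_ne hle hab)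
    simp only [mem_ofPred_eq] at ha hb
    rw [ha, hb] at this
    exact lt_irrefl _ this
  -- countably many ordinals below
  have hord : ∀ t, (Set.Iio (rk t)).Countable := by
    intro t
    induction t using hT.wf.induction with
    | _ t ih =>
      have : Set.Iio (rk t) ⊆ ⋃ s ∈ Set.Iio t, (Set.Iio (rk s) ∪ {rk s}) := by
        intro o ho
        simp only [mem_Iio] at ho
        have h1 : rk t = ⨆ b : { b // b < t }, Order.succ (rk b) := IsWellFounded.rank_eq _ _
        rw [h1, Ordinal.lt_iSup_iff] at ho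
        obtain ⟨⟨b, hb⟩, ho⟩ := ho
        rw [Order.lt_succ_iff] at ho
        simp only [mem_iUnion]
        refine ⟨b, hb, ?_⟩
        rcases eq_or_lt_of_le ho with h | h
        · right; exact h
        · left; exact h
      apply Set.Countable.mono this
      apply Set.Countable.biUnion
      · exact (hT.countable_Iic t).mono Iio_subset_Iic_self
      · intro s hs
        exact (ih s hs).union (Set.countable_singleton _)
  have hseg : ∀ t, {s | rk s ≤ rk t}.Countable := by
    intro t
    have : {s | rk s ≤ rk t} ⊆ ⋃ o ∈ (Set.Iio (rk t) ∪ {rk t}), {s | rk s = o} := by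
      intro s hs
      simp only [mem_ofPred_eq] at hs
      simp only [mem_iUnion]
      refine ⟨rk s, ?_, rfl⟩
      rcases eq_or_lt_of_le hs with h | h
      · right; exact h
      · left; exact h
    apply Set.Countable.mono this
    apply Set.Countable.biUnion
    · exact (hord t).union (Set.countable_singleton _)
    · intro o _
      exact hlev o
  have hinj : ∀ o : Ordinal, ∃ f : T → ℕ, Set.InjOn f {t | rk t = o} := fun o =>
    Set.countable_iff_exists_injOn.1 (hlev o)
  choose e he using hinj
  let key : T → Ordinal.{0} × ℕ := fun t => (rk t, e (rk t) t)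
  let r : T → T → Prop := InvImage (Prod.Lex (· < ·) (· < ·)) key
  have hr : ∀ a b, r a b ↔ rk a < rk b ∨ rk a = rk b ∧ e (rk a) a < e (rk b) b := by
    intro a b
    simp only [r, InvImage, key, Prod.lex_iff]
  refine ⟨r, ?_, ?_, ?_, ?_, ?_, ?_⟩
  · exact InvImage.wf _ (WellFounded.prod_lex Ordinal.lt_wf Nat.lt_wfRel.wf)
  · intro a b
    rw [hr, hr]
    rcases lt_trichotomy (rk a) (rk b) with h | h | h
    · exact Or.inl (Or.inl h)
    · rcases lt_trichotomy (e (rk a) a) (e (rk b) b) with h' | h' | h'
      · exact Or.inl (Or.inr ⟨h, h'⟩)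
      · right; left
        apply he (rk a) rfl
        · exact h.symm
        · rw [h', h]
      · exact Or.inr (Or.inr (Or.inr ⟨h.symm, h'⟩))
    · exact Or.inr (Or.inr (Or.inl h))
  · intro a b c hab hbc
    rw [hr] at *
    rcases hab with h | ⟨h, h'⟩ <;> rcases hbc with g | ⟨g, g'⟩
    · exact Or.inl (h.trans g)
    · exact Or.inl (g ▸ h)
    · exact Or.inl (h ▸ g)
    · exact Or.inr ⟨h.trans g, h'.trans g'⟩
  · intro a b hab
    rw [hr]
    exact Or.inl (hrk a b hab)
  · intro t
    apply (hseg t).mono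
    intro s hs
    simp only [mem_ofPred_eq] at hs ⊢
    rw [hr] at hs
    rcases hs with h | ⟨h, _⟩
    · exact h.le
    · exact h.le
  · intro a b c hab hbc
    rcases eq_or_lt_of_le hab with rfl | hab
    · exact hbc
    · rw [hr] at *
      have := hrk a b hab
      rcases hbc with g | ⟨g, g'⟩
      · exact Or.inl (this.trans g)
      · exact Or.inl (g ▸ this)

end Tree

section Rec

variable {T : Type} [PartialOrder T]

/-- the invariant on a set `D` of nodes -/
def Inv (D : Set T) (A : T → Set ℕ) : Prop :=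
  (∀ t ∈ D, ∀ u ∈ D, ∀ m, IsGLB {t, u} m → ((A t ∩ A u) \ A m).Finite ∧ (A m \ (A t ∩ A u)).Finite) ∧
  (∀ F : Finset T, (F : Set T) ⊆ D → (⋃ t ∈ F, A t)ᶜ.Infinite)

theorem glb_le_left {t u m : T} (h : IsGLB {t, u} m) : m ≤ t := h.1 (by simp)
theorem glb_le_right {t u m : T} (h : IsGLB {t, u} m) : m ≤ u := h.1 (by simp)
theorem glb_greatest {t u m x : T} (h : IsGLB {t, u} m) (h1 : x ≤ t) (h2 : x ≤ u) : x ≤ m := by
  apply h.2
  intro y hy
  rcases hy with rfl | hy
  · exact h1
  · rw [mem_singleton_iff.1 hy]; exact h2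
theorem glb_of_le {t u : T} (h : t ≤ u) : IsGLB {t, u} t := by
  constructor
  · intro y hy
    rcases hy with rfl | hy
    · exact le_rfl
    · rw [mem_singleton_iff.1 hy]; exact h
  · intro x hx
    exact hx (by simp)

theorem Inv.congr {D : Set T} {A A' : T → Set ℕ} (hD : ∀ a b, a ≤ b → b ∈ D → a ∈ D)
    (h : Inv D A) (hAA : ∀ t ∈ D, A t = A' t) : Inv D A' := by
  constructor
  · intro t ht u hu m hm
    rw [← hAA t ht, ← hAA u hu, ← hAA m (hD _ _ (glb_le_left hm) ht)]
    exact h.1 t ht u hu m hm
  · intro F hF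
    have := h.2 F hF
    have hEq : (⋃ t ∈ F, A t) = ⋃ t ∈ F, A' t := by
      apply iUnion₂_congr
      intro t ht
      exact hAA t (hF ht)
    rwa [hEq] at this

theorem extension (hT : IsNormalSuslinTree T) (D : Set T) (hDc : D.Countable)
    (hD : ∀ a b, a ≤ b → b ∈ D → a ∈ D) (t : T) (htD : t ∉ D) (hlt : ∀ s, s < t → s ∈ D)
    (A : T → Set ℕ) (hA : Inv D A) (B : Set ℕ) (hB : B.Infinite) :
    ∃ S : Set ℕ, (∀ A' : T → Set ℕ, (∀ s ∈ D, A' s = A s) → A' t = S → Inv (insert t D) A') ∧
      ((∀ s ∈ D, (B ∩ A s).Finite) → (B ∩ S).Infinite) := by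
  classical
  -- step 1 : E
  obtain ⟨E, hE, hEA, hEB⟩ : ∃ E : Set ℕ, E.Infinite ∧ (∀ s ∈ D, (E ∩ A s).Finite) ∧
      ((∀ s ∈ D, (B ∩ A s).Finite) → E ⊆ B) := by
    by_cases hcase : ∀ s ∈ D, (B ∩ A s).Finite
    · exact ⟨B, hB, hcase, fun _ => le_rfl⟩
    · obtain ⟨E, hE, hE'⟩ := exists_orthogonal D hDc A hA.2
      exact ⟨E, hE, hE', fun h => (hcase h).elim⟩
  obtain ⟨E0, E1, hE0, hE1, hdisj, hE0E, hE1E⟩ := exists_split E hE
  -- step 3 : separation
  have hltc : Countable {s : T // s < t} := by
    have := (hT.countable_Iic t).mono (Iio_subset_Iic_self)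
    exact this.to_subtype
  have hDc' : Countable D := hDc.to_subtype
  -- J : D → Set ℕ 
  choose glb hglb using fun u : T => hT.exists_glb t u
  obtain ⟨S0, hS1, hS2⟩ := separation (ι := {s : T // s < t}) (κ := D)
    (fun s => A s) (fun u => A u \ A (glb u)) (by
      rintro ⟨s, hs⟩ ⟨u, hu⟩
      dsimp only
      obtain ⟨m', hm'⟩ := hT.exists_glb s u
      have hm'm : m' ≤ glb u := glb_greatest (hglb u) ((glb_le_left hm').trans hs.le) (glb_le_right hm')
      have hmD : glb u ∈ D := hD _ _ (glb_le_right (hglb u)) hu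
      have hm'D : m' ∈ D := hD _ _ hm'm hmD
      have h1 := (hA.1 s (hlt s hs) u hu m' hm').1
      have h2 := (hA.1 m' hm'D (glb u) hmD m' (glb_of_le hm'm)).2
      apply (h1.union h2).subset
      rintro x ⟨hx1, hx2, hx3⟩
      by_cases hx4 : x ∈ A m'
      · right
        exact ⟨hx4, fun h => hx3 h.2⟩
      · left
        exact ⟨⟨hx1, hx2⟩, hx4⟩)
  let S : Set ℕ := (S0 \ E) ∪ E0
  refine ⟨S, ?_, ?_⟩
  swap
  · intro h
    apply hE0.mono
    intro x hx
    exact ⟨hEB h (hE0E hx), Or.inr hx⟩
  intro A' hA' hA't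
  -- basic facts
  have hsub : ∀ s, s < t → (A s \ S).Finite := by
    intro s hs
    apply ((hS1 ⟨s, hs⟩).union (hEA s (hlt s hs))).subset
    rintro x ⟨hx1, hx2⟩
    by_cases hx3 : x ∈ S0
    · right
      refine ⟨?_, hx1⟩
      by_contra hx4
      exact hx2 (Or.inl ⟨hx3, hx4⟩)
    · left
      exact ⟨hx1, hx3⟩
  have hint : ∀ u ∈ D, ((S ∩ A u) \ A (glb u)).Finite := by
    intro u hu
    apply ((hS2 ⟨u, hu⟩).union (hEA u hu)).subset
    rintro x ⟨⟨hx1, hx2⟩, hx3⟩
    rcases hx1 with hx1 | hx1
    · left
      exact ⟨hx1.1, hx2, hx3⟩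
    · right
      exact ⟨hE0E hx1, hx2⟩
  have hglb_lt : ∀ u ∈ D, ∀ m, IsGLB {t, u} m → m < t := by
    intro u hu m hm
    refine lt_of_le_of_ne (glb_le_left hm) ?_
    rintro rfl
    exact htD (hD _ _ (glb_le_right hm) hu)
  have hpair : ∀ u ∈ D, ∀ m, IsGLB {t, u} m → 
      ((S ∩ A u) \ A m).Finite ∧ (A m \ (S ∩ A u)).Finite := by
    intro u hu m hm
    have hmeq : m = glb u := hm.unique (hglb u)
    have hmt : m < t := hglb_lt u hu m hm
    have hmD : m ∈ D := hlt m hmt
    refine ⟨hmeq ▸ hint u hu, ?_⟩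
    have h2 := (hA.1 m hmD u hu m (glb_of_le (glb_le_right hm))).2
    apply ((hsub m hmt).union h2).subset
    rintro x ⟨hx1, hx2⟩
    by_cases hx3 : x ∈ S
    · right
      exact ⟨hx1, fun h => hx2 ⟨hx3, h.2⟩⟩
    · left
      exact ⟨hx1, hx3⟩
  constructor
  · intro a ha b hb m hm
    rcases ha with ha | ha
    · subst ha
      rcases hb with hb | hb
      · subst hb
        have hma := le_antisymm (glb_le_left hm) (glb_greatest hm le_rfl le_rfl)
        rw [hma]
        simp
      · have hmD : m ∈ D := hlt m (hglb_lt b hb m hm)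
        rw [hA't, hA' b hb, hA' m hmD]
        exact hpair b hb m hm
    · rcases hb with hb | hb
      · subst hb
        have hm' : IsGLB {b, a} m := by rwa [Set.pair_comm]
        have hmD : m ∈ D := hlt m (hglb_lt a ha m hm')
        rw [hA't, hA' a ha, hA' m hmD, Set.inter_comm]
        exact hpair a ha m hm'
      · have hmD : m ∈ D := hD _ _ (glb_le_left hm) ha
        rw [hA' a ha, hA' b hb, hA' m hmD]
        exact hA.1 a ha b hb m hm
  · intro F hF
    have hfin : (⋃ s ∈ F.filter (· ∈ D), (E ∩ A s)).Finite := by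
      apply Set.Finite.biUnion (Finset.finite_toSet _)
      intro s hs
      have : s ∈ D := by
        have := Finset.mem_coe.1 hs
        rw [Finset.mem_filter] at this
        exact this.2
      exact hEA s this
    apply (hE1.sdiff hfin).mono
    rintro x ⟨hx1, hx2⟩ hx3
    simp only [mem_iUnion] at hx3 hx2
    obtain ⟨s, hs, hxs⟩ := hx3
    rcases hF hs with rfl | hsD
    · rw [hA't] at hxs
      rcases hxs with hxs | hxs
      · exact hxs.2 (hE1E hx1)
      · exact Set.disjoint_left.1 hdisj hxs hx1
    · apply hx2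
      refine ⟨s, Finset.mem_filter.2 ⟨hs, hsD⟩, hE1E hx1, ?_⟩
      rw [hA' s hsD] at hxs
      exact hxs

/-- The combinatorial heart: under CH a normal Suslin tree carries a tall, proper, 
family, tree-like modulo finite sets, of subsets of `ℕ`. -/
theorem exists_family (hCH : (Cardinal.continuum : Cardinal.{0}) = Cardinal.aleph 1) (hT : IsNormalSuslinTree T) :
    ∃ A : T → Set ℕ, 
      (∀ t u m : T, IsGLB {t, u} m → ((A t ∩ A u) \ A m).Finite ∧ (A m \ (A t ∩ A u)).Finite) ∧
      (∀ F : Finset T, (⋃ t ∈ F, A t)ᶜ.Infinite) ∧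
      (∀ B : Set ℕ, B.Infinite → ∃ t, (B ∩ A t).Infinite) := by
  classical
  obtain ⟨r, hwf, htri, htrans, hext, hcount, hle⟩ := hT.exists_enum
  -- surjection onto sets of naturals
  obtain ⟨φ, hφ⟩ : ∃ φ : T → Set ℕ, Function.Surjective φ := by
    have h1 : Cardinal.mk (Set ℕ) ≤ Cardinal.mk T := by
      have : Cardinal.aleph 1 ≤ Cardinal.mk T := by
        rw [← Cardinal.succ_aleph0, Order.succ_le_iff]
        by_contra hcon
        apply hT.uncountable
        rw [Set.countable_univ_iff]
        exact Cardinal.mk_le_aleph0_iff.1 (not_lt.1 hcon)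
      rw [Cardinal.mk_set_nat, hCH]
      exact this
    obtain ⟨g⟩ := h1
    exact ⟨Function.invFun g, Function.invFun_surjective g.injective⟩
  have hirr : ∀ a, ¬ r a a := fun a h => (hwf.irrefl.irrefl a h)
  -- the predicate used in the recursion
  let P : (t : T) → (T → Set ℕ) → Set ℕ → Prop := fun t A S =>
    (∀ A' : T → Set ℕ, (∀ s ∈ {s | r s t}, A' s = A s) → A' t = S → Inv (insert t {s | r s t}) A') ∧
      ((φ t).Infinite → (∀ s ∈ {s | r s t}, (φ t ∩ A s).Finite) → (φ t ∩ S).Infinite)
  let step : (t : T) → ((s : T) → r s t → Set ℕ) → Set ℕ := fun t ih =>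
    if h : ∃ S, P t (fun s => if hs : r s t then ih s hs else ∅) S then Classical.choose h else ∅
  let A : T → Set ℕ := hwf.fix step
  have hA : ∀ t, A t = if h : ∃ S, P t (fun s => if r s t then A s else ∅) S then Classical.choose h else ∅ := by
    intro t
    have := hwf.fix_eq step t
    show hwf.fix step t = _
    rw [this]
    rfl
  -- D is lower closed
  have hDlow : ∀ t, ∀ a b, a ≤ b → b ∈ {s | r s t} → a ∈ {s | r s t} := by
    intro t a b hab hb
    exact hle a b t hab hb
  have hmain : ∀ t, Inv (insert t {s | r s t}) A ∧ 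
      ((φ t).Infinite → (∀ s ∈ {s | r s t}, (φ t ∩ A s).Finite) → (φ t ∩ A t).Infinite) := by
    intro t
    induction t using hwf.induction with
    | _ t ih =>
      have hInvD : Inv {s | r s t} A := by
        constructor
        · intro a ha b hb m hm
          rcases htri a b with h | h | h
          · exact (ih b hb).1.1 a (Or.inr h) b (Or.inl rfl) m hm
          · subst h
            exact (ih a ha).1.1 a (Or.inl rfl) a (Or.inl rfl) m hm
          · exact (ih a ha).1.1 a (Or.inl rfl) b (Or.inr h) m hm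
        · intro F hF
          rcases F.eq_empty_or_nonempty with rfl | hne
          · simp only [Finset.notMem_empty, iUnion_of_empty, iUnion_empty, compl_empty]
            exact Set.infinite_univ
          · -- r-max of F
            obtain ⟨w, hw, hwmax⟩ : ∃ w ∈ F, ∀ x ∈ F, x = w ∨ r x w := by
              have : ∀ G : Finset T, G.Nonempty → ∃ w ∈ G, ∀ x ∈ G, x = w ∨ r x w := by
                intro G hG
                induction hG using Finset.Nonempty.cons_induction with
                | singleton a => exact ⟨a, by simp, by simp⟩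
                | cons a s ha hs ihs =>
                  obtain ⟨w, hw, hwmax⟩ := ihs
                  rcases htri a w with h | h | h
                  · refine ⟨w, by simp [hw], fun x hx => ?_⟩
                    rw [Finset.mem_cons] at hx
                    rcases hx with rfl | hx
                    · exact Or.inr h
                    · exact hwmax x hx
                  · subst h; exact (ha hw).elim
                  · refine ⟨a, by simp, fun x hx => ?_⟩
                    rw [Finset.mem_cons] at hx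
                    rcases hx with rfl | hx
                    · exact Or.inl rfl
                    · rcases hwmax x hx with rfl | h'
                      · exact Or.inr h
                      · exact Or.inr (htrans _ _ _ h' h)
              exact this F hne
            apply (ih w (hF hw)).1.2
            intro x hx
            rcases hwmax x hx with rfl | h
            · exact Or.inl rfl
            · exact Or.inr h
      have hInvD' : Inv {s | r s t} (fun s => if r s t then A s else ∅) := by
        apply hInvD.congr (hDlow t)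
        intro s hs
        simp only [mem_ofPred_eq] at hs
        simp only [hs, if_true]
      have hex : ∃ S, P t (fun s => if r s t then A s else ∅) S := by
        by_cases hinf : (φ t).Infinite
        · obtain ⟨S, hS1, hS2⟩ := extension hT {s | r s t} (hcount t) (hDlow t) t (hirr t)
            (fun s hs => hext s t hs) _ hInvD' (φ t) hinf
          exact ⟨S, hS1, fun _ => hS2⟩
        · obtain ⟨S, hS1, hS2⟩ := extension hT {s | r s t} (hcount t) (hDlow t) t (hirr t)
            (fun s hs => hext s t hs) _ hInvD' Set.univ Set.infinite_univ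
          exact ⟨S, hS1, fun h => (hinf h).elim⟩
      have hAt : A t = Classical.choose hex := by
        rw [hA t, dif_pos hex]
      have hspec := Classical.choose_spec hex
      rw [← hAt] at hspec
      constructor
      · apply hspec.1 A
        · intro s hs
          simp only [mem_ofPred_eq] at hs
          simp only [hs, if_true]
        · rfl
      · intro h1 h2
        apply hspec.2 h1
        intro s hs
        simp only [mem_ofPred_eq] at hs
        simp only [hs, if_true]
        exact h2 s hs
  refine ⟨A, ?_, ?_, ?_⟩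
  · intro a b m hm
    rcases htri a b with h | h | h
    · exact (hmain b).1.1 a (Or.inr h) b (Or.inl rfl) m hm
    · subst h
      exact (hmain a).1.1 a (Or.inl rfl) a (Or.inl rfl) m hm
    · exact (hmain a).1.1 a (Or.inl rfl) b (Or.inr h) m hm
  · intro F
    rcases F.eq_empty_or_nonempty with rfl | hne
    · simp only [Finset.notMem_empty, iUnion_of_empty, iUnion_empty, compl_empty]
      exact Set.infinite_univ
    · have : ∀ G : Finset T, G.Nonempty → ∃ w ∈ G, ∀ x ∈ G, x = w ∨ r x w := by
        intro G hG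
        induction hG using Finset.Nonempty.cons_induction with
        | singleton a => exact ⟨a, by simp, by simp⟩
        | cons a s ha hs ihs =>
          obtain ⟨w, hw, hwmax⟩ := ihs
          rcases htri a w with h | h | h
          · refine ⟨w, by simp [hw], fun x hx => ?_⟩
            rw [Finset.mem_cons] at hx
            rcases hx with rfl | hx
            · exact Or.inr h
            · exact hwmax x hx
          · subst h; exact (ha hw).elim
          · refine ⟨a, by simp, fun x hx => ?_⟩
            rw [Finset.mem_cons] at hx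
            rcases hx with rfl | hx
            · exact Or.inl rfl
            · rcases hwmax x hx with rfl | h'
              · exact Or.inr h
              · exact Or.inr (htrans _ _ _ h' h)
      obtain ⟨w, hw, hwmax⟩ := this F hne
      apply (hmain w).1.2
      intro x hx
      rcases hwmax x hx with rfl | h
      · exact Or.inl rfl
      · exact Or.inr h
  · intro B hB
    obtain ⟨t, rfl⟩ := hφ B
    by_cases hcase : ∀ s ∈ {s | r s t}, (φ t ∩ A s).Finite
    · exact ⟨t, (hmain t).2 hB hcase⟩
    · push Not at hcase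
      obtain ⟨s, _, hs⟩ := hcase
      exact ⟨s, hs⟩

end Rec


section PathSpace

variable {T : Type} [PartialOrder T]

/-- The path space. -/
def PathSpace (T : Type) [PartialOrder T] : Set (T → Bool) :=
  {p | (∀ s t, s ≤ t → p t = true → p s = true) ∧
    (∀ s t, p s = true → p t = true → s ≤ t ∨ t ≤ s)}

theorem isClosed_pathSpace : IsClosed (PathSpace T) := by
  have h1 : IsClosed {p : T → Bool | ∀ s t, s ≤ t → p t = true → p s = true} := by
    simp only [ofPred_forall]
    refine isClosed_iInter fun s => isClosed_iInter fun t => isClosed_iInter fun _ => ?_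
    have hc : Continuous fun p : T → Bool => (p s, p t) :=
      (continuous_apply s).prodMk (continuous_apply t)
    exact IsClosed.preimage hc (isClosed_discrete {x : Bool × Bool | x.2 = true → x.1 = true})
  have h2 : IsClosed {p : T → Bool | ∀ s t, p s = true → p t = true → s ≤ t ∨ t ≤ s} := by
    simp only [ofPred_forall]
    refine isClosed_iInter fun s => isClosed_iInter fun t => ?_
    have hc : Continuous fun p : T → Bool => (p s, p t) :=
      (continuous_apply s).prodMk (continuous_apply t)
    have := IsClosed.preimage hc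
      (isClosed_discrete {x : Bool × Bool | x.1 = true → x.2 = true → s ≤ t ∨ t ≤ s})
    convert this using 1
    ext p
    simp
  exact h1.inter h2

instance : CompactSpace (PathSpace T) :=
  isCompact_iff_compactSpace.1 isClosed_pathSpace.isCompact

/-- a countable union of closed sets -/
def Fs {X : Type*} [TopologicalSpace X] (O : Set X) : Prop :=
  ∃ 𝒞 : Set (Set X), 𝒞.Countable ∧ (∀ C ∈ 𝒞, IsClosed C) ∧ ⋃₀ 𝒞 = O

theorem perfectlyNormal_of_Fs {X : Type*} [TopologicalSpace X] [NormalSpace X]
    (h : ∀ O : Set X, IsOpen O → Fs O) : PerfectlyNormalSpace X := by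
  constructor
  intro C hC
  obtain ⟨𝒞, h1, h2, h3⟩ := h Cᶜ hC.isOpen_compl
  have : C = ⋂ D ∈ 𝒞, Dᶜ := by
    rw [← compl_compl C, ← h3, sUnion_eq_biUnion]
    simp only [compl_iUnion]
  rw [this]
  exact IsGδ.biInter h1 (fun D hD => (h2 D hD).isOpen_compl.isGδ)

theorem Fs_prod {X M : Type*} [TopologicalSpace X] [TopologicalSpace M] [CompactSpace M]
    [T2Space M] [SecondCountableTopology M] (h : ∀ O : Set X, IsOpen O → Fs O) :
    ∀ O : Set (X × M), IsOpen O → Fs O := by
  intro O hO
  let V : Set M → Set X := fun b => {p | ∀ z ∈ closure b, (p, z) ∈ O}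
  have hV : ∀ b, IsOpen (V b) := by
    intro b
    rw [isOpen_iff_mem_nhds]
    intro p hp
    obtain ⟨u, v, hu, hv, hpu, hbv, huv⟩ := generalized_tube_lemma (isCompact_singleton (x := p))
      (isClosed_closure (s := b)).isCompact hO (by
        rintro ⟨x, z⟩ ⟨hx, hz⟩
        rw [mem_singleton_iff] at hx
        subst hx
        exact hp z hz)
    refine Filter.mem_of_superset (hu.mem_nhds (hpu rfl)) ?_
    intro x hx z hz
    exact huv ⟨hx, hbv hz⟩
  choose 𝒞 h1 h2 h3 using fun b => h (V b) (hV b)
  refine ⟨⋃ b ∈ TopologicalSpace.countableBasis M, (fun C => C ×ˢ closure b) '' 𝒞 b, ?_, ?_, ?_⟩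
  · apply Set.Countable.biUnion (TopologicalSpace.countable_countableBasis M)
    intro b _
    exact (h1 b).image _
  · intro D hD
    simp only [mem_iUnion] at hD
    obtain ⟨b, _, C, hC, rfl⟩ := hD
    exact (h2 b C hC).prod isClosed_closure
  · ext ⟨p, z⟩
    simp only [mem_sUnion, mem_iUnion]
    constructor
    · rintro ⟨D, ⟨b, _, C, hC, rfl⟩, hp, hz⟩
      have : p ∈ V b := by rw [← h3 b]; exact ⟨C, hC, hp⟩
      exact this z hz
    · intro hpz
      obtain ⟨u, v, hu, hv, hpu, hzv, huv⟩ := isOpen_prod_iff.1 hO p z hpz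
      obtain ⟨b, hb, hzb, hbv⟩ := 
        (TopologicalSpace.isBasis_countableBasis M).exists_closure_subset (hv.mem_nhds hzv)
      have hpV : p ∈ V b := by
        intro z' hz'
        exact huv ⟨hpu, hbv hz'⟩
      rw [← h3 b] at hpV
      obtain ⟨C, hC, hpC⟩ := hpV
      exact ⟨C ×ˢ closure b, ⟨b, hb, C, hC, rfl⟩, hpC, subset_closure hzb⟩

/-- the cone of paths through `s` -/
def cone (s : T) : Set (PathSpace T) := {p | p.1 s = true}

theorem isClosed_cone (s : T) : IsClosed (cone s) := by
  have hc : Continuous fun p : PathSpace T => p.1 s := (continuous_apply s).comp continuous_subtype_val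
  exact IsClosed.preimage hc (isClosed_discrete {true})

theorem cone_mono {s t : T} (h : s ≤ t) : cone t ⊆ cone s := fun p hp => p.2.1 s t h hp

/-- the path of strict predecessors -/
noncomputable def below (hT : IsNormalSuslinTree T) (t : T) : PathSpace T := by
  classical
  exact ⟨fun s => decide (s < t), by
    intro a b hab hb
    simp only [decide_eq_true_eq] at *
    exact lt_of_le_of_lt hab hb, by
    intro a b ha hb
    simp only [decide_eq_true_eq] at *
    exact hT.comparable ha.le hb.le⟩

theorem below_apply (hT : IsNormalSuslinTree T) (t s : T) : (below hT t).1 s = true ↔ s < t := by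
  simp [below]

/-- the path of predecessors, including the node -/
noncomputable def upto (hT : IsNormalSuslinTree T) (t : T) : PathSpace T := by
  classical
  exact ⟨fun s => decide (s ≤ t), by
    intro a b hab hb
    simp only [decide_eq_true_eq] at *
    exact hab.trans hb, by
    intro a b ha hb
    simp only [decide_eq_true_eq] at *
    exact hT.comparable ha hb⟩

theorem upto_apply (hT : IsNormalSuslinTree T) (t s : T) : (upto hT t).1 s = true ↔ s ≤ t := by
  simp [upto]

theorem exists_basic {O : Set (PathSpace T)} (hO : IsOpen O) {q : PathSpace T} (hq : q ∈ O) :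
    ∃ I : Finset T, ∀ p : PathSpace T, (∀ i ∈ I, p.1 i = q.1 i) → p ∈ O := by
  obtain ⟨O', hO', rfl⟩ := isOpen_induced_iff.1 hO
  obtain ⟨I, u, hu, hIu⟩ := isOpen_pi_iff.1 hO' q.1 hq
  refine ⟨I, fun p hp => hIu ?_⟩
  intro i hi
  rw [hp i hi]
  exact (hu i hi).2

/-- a finite subset of a path containing a given member has a greatest element. -/
theorem exists_max_of_path (q : PathSpace T) (F : Finset T) (s0 : T) (hs0 : q.1 s0 = true) :
    (∀ f ∈ F, q.1 f = true) → ∃ s, q.1 s = true ∧ s0 ≤ s ∧ ∀ f ∈ F, f ≤ s := by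
  classical
  induction F using Finset.induction_on with
  | empty => intro _; exact ⟨s0, hs0, le_rfl, by simp⟩
  | insert a F _ ih =>
    intro hF
    obtain ⟨s, hs, hs1, hs2⟩ := ih (fun f hf => hF f (Finset.mem_insert_of_mem hf))
    rcases q.2.2 a s (hF a (Finset.mem_insert_self _ _)) hs with h | h
    · refine ⟨s, hs, hs1, fun f hf => ?_⟩
      rcases Finset.mem_insert.1 hf with rfl | hf
      · exact h
      · exact hs2 f hf
    · refine ⟨a, hF a (Finset.mem_insert_self _ _), hs1.trans h, fun f hf => ?_⟩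
      rcases Finset.mem_insert.1 hf with rfl | hf
      · exact le_rfl
      · exact (hs2 f hf).trans h

theorem exists_cone_subset (hT : IsNormalSuslinTree T) {O : Set (PathSpace T)} (hO : IsOpen O)
    {q : PathSpace T} (hq : q ∈ O) {s0 : T} (hs0 : q.1 s0 = true) : 
    ∃ u, s0 ≤ u ∧ cone u ⊆ O := by
  classical
  obtain ⟨I, hI⟩ := exists_basic hO hq
  obtain ⟨s, hs, hs1, hs2⟩ := exists_max_of_path q (I.filter (fun i => q.1 i = true)) s0 hs0 (by
    intro f hf; exact (Finset.mem_filter.1 hf).2)
  have hfin : (⋃ g ∈ I, {u : T | s ⋖ u ∧ u ≤ g}).Finite := by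
    apply Set.Finite.biUnion (Finset.finite_toSet _)
    intro g _
    apply Set.Subsingleton.finite
    rintro a ⟨ha1, ha2⟩ b ⟨hb1, hb2⟩
    rcases hT.comparable ha2 hb2 with h | h
    · rcases eq_or_lt_of_le h with h | h
      · exact h
      · exact (hb1.2 ha1.lt h).elim
    · rcases eq_or_lt_of_le h with h | h
      · exact h.symm
      · exact (ha1.2 hb1.lt h).elim
  obtain ⟨u, hu1, hu2⟩ := ((hT.infinite_succ s).sdiff hfin).nonempty
  simp only [mem_iUnion, mem_ofPred_eq, not_exists] at hu1 hu2
  refine ⟨u, hs1.trans hu1.le, fun p hp => hI p fun i hi => ?_⟩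
  have hpu : p.1 u = true := hp
  cases hqi : q.1 i with
  | true =>
    have := hs2 i (Finset.mem_filter.2 ⟨hi, hqi⟩)
    exact p.2.1 i u (this.trans hu1.le) hpu
  | false =>
    by_contra hcon
    have hpi : p.1 i = true := by simpa using hcon
    rcases p.2.2 u i hpu hpi with h | h
    · exact hu2 i hi ⟨hu1, h⟩
    · rcases eq_or_lt_of_le h with h | h
      · exact hu2 i hi ⟨hu1, h.symm.le⟩
      · rcases hT.comparable h.le hu1.le with h' | h'
        · have := q.2.1 i s h' hs
          rw [hqi] at this
          exact Bool.noConfusion this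
        · rcases eq_or_lt_of_le h' with h' | h'
          · subst h'
            rw [hqi] at hs
            exact Bool.noConfusion hs
          · exact hu1.2 h' h

theorem exists_maximal_antichain (N : Set T) : 
    ∃ A : Set T, A ⊆ N ∧ IsAntichain (· ≤ ·) A ∧ ∀ x ∈ N, ∃ a ∈ A, a ≤ x ∨ x ≤ a := by
  obtain ⟨A, hA⟩ := zorn_subset {A : Set T | A ⊆ N ∧ IsAntichain (· ≤ ·) A} (by
    intro c hc hchain
    refine ⟨⋃₀ c, ⟨sUnion_subset fun s hs => (hc hs).1, ?_⟩, fun s hs => subset_sUnion_of_mem hs⟩
    intro a ha b hb hab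
    obtain ⟨s, hs, has⟩ := ha
    obtain ⟨t, ht, hbt⟩ := hb
    rcases hchain.total hs ht with h | h
    · exact (hc ht).2 (h has) hbt hab
    · exact (hc hs).2 has (h hbt) hab)
  refine ⟨A, hA.1.1, hA.1.2, fun x hx => ?_⟩
  by_contra hcon
  push Not at hcon
  have hins : insert x A ∈ {A : Set T | A ⊆ N ∧ IsAntichain (· ≤ ·) A} := by
    refine ⟨insert_subset hx hA.1.1, ?_⟩
    rw [isAntichain_insert]
    exact ⟨hA.1.2, fun b hb _ => ⟨(hcon b hb).2, (hcon b hb).1⟩⟩
  have := hA.2 hins (subset_insert _ _) (mem_insert _ _)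
  exact (hcon x this).1 le_rfl

theorem exists_dense (hT : IsNormalSuslinTree T) {R : Set T} (hR : ¬ R.Countable) :
    ∃ s0, ∀ t, s0 ≤ t → ∃ r ∈ R, t < r := by
  by_contra hcon
  push Not at hcon
  let N : Set T := {t | ∀ r ∈ R, ¬ t < r}
  obtain ⟨A, hAN, hAanti, hAmax⟩ := exists_maximal_antichain N
  apply hR
  have hsub : R ⊆ ⋃ a ∈ A, Set.Iic a := by
    intro r hr
    obtain ⟨t, hrt, ht⟩ := hcon r
    obtain ⟨a, haA, ha⟩ := hAmax t ht
    simp only [mem_iUnion]
    refine ⟨a, haA, ?_⟩
    rcases ha with ha | ha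
    · rcases hT.comparable hrt ha with h | h
      · exact h
      · rcases eq_or_lt_of_le h with h | h
        · exact h.symm.le
        · exact (hAN haA r hr h).elim
    · exact hrt.trans ha
  apply Set.Countable.mono hsub
  exact Set.Countable.biUnion (hT.countable_antichain A hAanti) (fun a _ => hT.countable_Iic a)

theorem Fs_pathSpace (hT : IsNormalSuslinTree T) (O : Set (PathSpace T)) (hO : IsOpen O) : Fs O := by
  classical
  let S : Set T := {s | cone s ⊆ O}
  let M : Set T := {s | s ∈ S ∧ ∀ s' < s, s' ∉ S}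
  have hM : M.Countable := by
    apply hT.countable_antichain
    intro a ha b hb hab hle
    exact hb.2 a (lt_of_le_of_ne hle hab) ha.1
  let R : Set T := {t | below hT t ∈ O ∧ ∀ s < t, s ∉ S}
  have hR : R.Countable := by
    by_contra hR
    obtain ⟨s0, hs0⟩ := exists_dense hT hR
    obtain ⟨r, hr, hsr⟩ := hs0 s0 le_rfl
    obtain ⟨u, hu, huO⟩ := exists_cone_subset hT hO hr.1 ((below_apply hT r s0).2 hsr)
    obtain ⟨r', hr', hur'⟩ := hs0 u hu
    exact hr'.2 u hur' huO
  refine ⟨(cone '' M) ∪ ((fun t => {below hT t}) '' R), (hM.image _).union (hR.image _), ?_, ?_⟩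
  · rintro C (⟨s, _, rfl⟩ | ⟨t, _, rfl⟩)
    · exact isClosed_cone s
    · exact isClosed_singleton
  · apply Set.Subset.antisymm
    · rintro q ⟨C, (⟨s, hs, rfl⟩ | ⟨t, ht, rfl⟩), hq⟩
      · exact hs.1 hq
      · rw [mem_singleton_iff.1 hq]
        exact ht.1
    · intro q hq
      by_cases hcase : ∃ s, q.1 s = true ∧ s ∈ S
      · obtain ⟨s, hqs, hs⟩ := hcase
        obtain ⟨m, ⟨hm1, hm2⟩, hm3⟩ := hT.wf.has_min {x | x ∈ S ∧ x ≤ s} ⟨s, hs, le_rfl⟩
        refine ⟨cone m, Or.inl ⟨m, ⟨hm1, fun s' hs' hs'S => ?_⟩, rfl⟩, ?_⟩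
        · exact hm3 s' ⟨hs'S, hs'.le.trans hm2⟩ hs'
        · exact q.2.1 m s hm2 hqs
      · push Not at hcase
        -- find g outside q above all of q 
        have hg : ∃ g, q.1 g = false ∧ ∀ s, q.1 s = true → s < g := by
          by_contra hno
          push Not at hno
          by_cases hemp : ∃ s0, q.1 s0 = true
          · obtain ⟨s0, hs0⟩ := hemp
            obtain ⟨I, hI⟩ := exists_basic hO hq
            have hch : ∀ g : T, ∃ s, q.1 s = true ∧ (q.1 g = false → ¬ s < g) := by
              intro g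
              by_cases hg : q.1 g = false
              · obtain ⟨s, hs1, hs2⟩ := hno g hg
                exact ⟨s, hs1, fun _ => hs2⟩
              · exact ⟨s0, hs0, fun h => (hg h).elim⟩
            choose f hf1 hf2 using hch
            obtain ⟨s, hs, hs1, hs2⟩ := exists_max_of_path q 
              (I.filter (fun i => q.1 i = true) ∪ I.image f) s0 hs0 (by
              intro x hx
              rcases Finset.mem_union.1 hx with hx | hx
              · exact (Finset.mem_filter.1 hx).2
              · obtain ⟨g, _, rfl⟩ := Finset.mem_image.1 hx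
                exact hf1 g)
            apply hcase s hs
            intro p hp
            apply hI p
            intro i hi
            have hps : p.1 s = true := hp
            cases hqi : q.1 i with
            | true =>
              have := hs2 i (Finset.mem_union_left _ (Finset.mem_filter.2 ⟨hi, hqi⟩))
              exact p.2.1 i s this hps
            | false =>
              by_contra hcon
              have hpi : p.1 i = true := by simpa using hcon
              have hfi : f i ≤ s := hs2 (f i) (Finset.mem_union_right _ (Finset.mem_image_of_mem _ hi))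
              have hpfi : p.1 (f i) = true := p.2.1 _ _ hfi hps
              rcases p.2.2 (f i) i hpfi hpi with h | h
              · rcases eq_or_lt_of_le h with h | h
                · have := hf1 i
                  rw [h, hqi] at this
                  exact Bool.noConfusion this
                · exact hf2 i hqi h
              · have := q.2.1 i (f i) h (hf1 i)
                rw [hqi] at this
                exact Bool.noConfusion this
          · push Not at hemp
            obtain ⟨r, hr⟩ := hT.exists_least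
            obtain ⟨s, hs, _⟩ := hno r (by simpa using hemp r)
            exact (hemp s hs).elim
        obtain ⟨g, hg1, hg2⟩ := hg
        obtain ⟨t, ⟨ht1, ht2⟩, ht3⟩ := hT.wf.has_min {x | x ≤ g ∧ q.1 x = false} ⟨g, le_rfl, hg1⟩
        have hqt : q = below hT t := by
          apply Subtype.ext
          funext x
          rw [Bool.eq_iff_iff, below_apply]
          constructor
          · intro hx
            rcases hT.comparable (hg2 x hx).le ht1 with h | h
            · rcases eq_or_lt_of_le h with h | h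
              · subst h
                rw [hx] at ht2
                exact Bool.noConfusion ht2
              · exact h
            · have := q.2.1 t x h hx
              rw [this] at ht2
              exact Bool.noConfusion ht2
          · intro hx
            by_contra hxf
            exact ht3 x ⟨hx.le.trans ht1, by simpa using hxf⟩ hx
        refine ⟨{below hT t}, Or.inr ⟨t, ⟨hqt ▸ hq, fun s hs => ?_⟩, rfl⟩, ?_⟩
        · apply hcase
          rw [hqt, below_apply]
          exact hs
        · rw [hqt]; rfl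

end PathSpace


section Cp

variable {T : Type} [PartialOrder T]

theorem not_hereditarilyGrothendieck (hCH : (Cardinal.continuum : Cardinal.{0}) = Cardinal.aleph 1)
    (hT : IsNormalSuslinTree T) : ¬ IsHereditarilyGrothendieck (PathSpace T × (ℕ → Bool)) := by
  classical
  obtain ⟨A, hA1, hA2, hA3⟩ := exists_family hCH hT
  intro hG
  let pt : T → PathSpace T × (ℕ → Bool) := fun t => (upto hT t, fun n => decide (n ∈ A t))
  let Y : Set (PathSpace T × (ℕ → Bool)) := Set.range pt
  let yt : T → Y := fun t => ⟨pt t, t, rfl⟩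
  have hyt : ∀ y : Y, ∃ t, y = yt t := by
    rintro ⟨_, t, rfl⟩
    exact ⟨t, rfl⟩
  have hb : Continuous (fun b : Bool => if b = true then (1 : ℝ) else 0) := continuous_of_discreteTopology
  let f : ℕ → Cp Y := fun n => ⟨fun y => if y.1.2 n = true then 1 else 0, 
    hb.comp ((continuous_apply n).comp (continuous_snd.comp continuous_subtype_val))⟩
  let g : T → Cp Y := fun s => ⟨fun y => if y.1.1.1 s = true then 1 else 0, 
    hb.comp ((continuous_apply s).comp (continuous_subtype_val.comp 
      (continuous_fst.comp continuous_subtype_val)))⟩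
  have hf : ∀ n t, (f n).1 (yt t) = if n ∈ A t then 1 else 0 := by
    intro n t
    simp only [f, yt, pt, decide_eq_true_eq]
  have hg : ∀ s t, (g s).1 (yt t) = if s ≤ t then 1 else 0 := by
    intro s t
    simp only [g, yt, pt, upto_apply]
  let Z : Set (Cp Y) := {h | ∃ y, h.1 y ≠ 0}
  let AZ : Set Z := {z | ∃ n, z.1 = f n}
  have hcomp : IsCompact (closure AZ) := by
    apply hG Y Z AZ
    intro B hBA hB
    have hn : ∀ z : Z, ∃ n, z ∈ B → z.1 = f n := by
      intro z
      by_cases hz : z ∈ B
      · obtain ⟨n, hn⟩ := hBA hz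
        exact ⟨n, fun _ => hn⟩
      · exact ⟨0, fun h => (hz h).elim⟩
    choose ν hν using hn
    have hνinj : Set.InjOn ν B := by
      intro z hz w hw hzw
      apply Subtype.ext
      rw [hν z hz, hν w hw, hzw]
    have hN : (ν '' B).Infinite := hB.image hνinj
    obtain ⟨t, ht⟩ := hA3 _ hN
    have hne : (cofinite ⊓ 𝓟 (ν '' B ∩ A t)).NeBot := Filter.cofinite_inf_principal_neBot_iff.2 ht
    let 𝒰 : Ultrafilter ℕ := Ultrafilter.of (cofinite ⊓ 𝓟 (ν '' B ∩ A t))
    have h𝒰 : (𝒰 : Filter ℕ) ≤ cofinite ⊓ 𝓟 (ν '' B ∩ A t) := Ultrafilter.of_le _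
    have h𝒰fin : ∀ s : Set ℕ, s.Finite → sᶜ ∈ 𝒰 := by
      intro s hs
      exact h𝒰 (mem_inf_of_left hs.compl_mem_cofinite)
    have h𝒰N : ν '' B ∩ A t ∈ 𝒰 := h𝒰 (mem_inf_of_right (mem_principal_self _))
    have hup : ∀ u v : T, u ≤ v → A u ∈ 𝒰 → A v ∈ 𝒰 := by
      intro u v huv hu
      have h1 := (hA1 u v u (glb_of_le huv)).2
      filter_upwards [hu, h𝒰fin _ h1] with n hn1 hn2
      by_contra hn3
      exact hn2 ⟨hn1, fun h => hn3 h.2⟩
    have hmeet : ∀ u v m : T, IsGLB {u, v} m → A u ∈ 𝒰 → A v ∈ 𝒰 → A m ∈ 𝒰 := by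
      intro u v m hm hu hv
      have h1 := (hA1 u v m hm).1
      filter_upwards [hu, hv, h𝒰fin _ h1] with n hn1 hn2 hn3
      by_contra hn4
      exact hn3 ⟨⟨hn1, hn2⟩, hn4⟩
    have htU : A t ∈ 𝒰 := Filter.mem_of_superset h𝒰N inter_subset_right
    obtain ⟨s, hsU, hsmin⟩ := hT.wf.has_min {u | A u ∈ 𝒰} ⟨t, htU⟩
    have hs : ∀ u, A u ∈ 𝒰 ↔ s ≤ u := by
      intro u
      constructor
      · intro hu
        obtain ⟨m, hm⟩ := hT.exists_glb s u
        have hmU := hmeet s u m hm hsU hu
        rcases eq_or_lt_of_le (glb_le_left hm) with h | h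
        · rw [← h]; exact glb_le_right hm
        · exact (hsmin m hmU h).elim
      · intro hu
        exact hup s u hu hsU
    have hgs : g s ∈ Z := ⟨yt s, by rw [hg]; simp⟩
    refine ⟨⟨g s, hgs⟩, ?_⟩
    -- inverse of ν on B
    have hζ : ∀ n : ℕ, ∃ z : Z, n ∈ ν '' B → z ∈ B ∧ ν z = n := by
      intro n
      by_cases h : n ∈ ν '' B
      · obtain ⟨z, hz, hzn⟩ := h
        exact ⟨z, fun _ => ⟨hz, hzn⟩⟩
      · exact ⟨⟨g s, hgs⟩, fun h' => (h h').elim⟩
    choose ζ hζ using hζ
    have htend : Tendsto ζ 𝒰 (𝓝 ⟨g s, hgs⟩) := by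
      rw [tendsto_subtype_rng]
      show Tendsto (fun n => ((ζ n : Z) : Cp Y)) 𝒰 (𝓝 (g s))
      have : Tendsto (fun n => ((ζ n : Z) : Cp Y).1) 𝒰 (𝓝 (g s).1) := by
        rw [tendsto_pi_nhds]
        intro y
        obtain ⟨u, rfl⟩ := hyt y
        apply tendsto_nhds_of_eventually_eq
        rw [hg]
        by_cases hu : s ≤ u
        · have hu' := (hs u).2 hu
          filter_upwards [hu', h𝒰N] with n hn1 hn2
          have h1 := hζ n hn2.1
          rw [hν _ h1.1, h1.2, hf]
          simp [hn1, hu]
        · have hu' : A u ∉ 𝒰 := fun h => hu ((hs u).1 h)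
          have hu'' : (A u)ᶜ ∈ 𝒰 := Ultrafilter.compl_mem_iff_notMem.2 hu'
          filter_upwards [hu'', h𝒰N] with n hn1 hn2
          have h1 := hζ n hn2.1
          rw [hν _ h1.1, h1.2, hf]
          have hn1' : n ∉ A u := hn1
          simp [hn1', hu]
      exact tendsto_subtype_rng.2 this
    rw [accPt_iff_frequently]
    apply htend.frequently
    apply Filter.Eventually.frequently
    have hfin : {n | n ∈ ν '' B ∧ ζ n = ⟨g s, hgs⟩}.Finite := by
      apply Set.Subsingleton.finite
      rintro a ⟨ha1, ha2⟩ b ⟨hb1, hb2⟩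
      rw [← (hζ a ha1).2, ← (hζ b hb1).2, ha2, hb2]
    filter_upwards [h𝒰N, h𝒰fin _ hfin] with n hn1 hn2
    exact ⟨fun h => hn2 ⟨hn1.1, h⟩, (hζ n hn1.1).1⟩
  -- now the contradiction
  have hcont : Continuous (fun z : Z => (z.1.1 : Y → ℝ)) :=
    continuous_subtype_val.comp continuous_subtype_val
  have hclosed : IsClosed ((fun z : Z => (z.1.1 : Y → ℝ)) '' closure AZ) := (hcomp.image hcont).isClosed
  have hzero : (0 : Y → ℝ) ∈ closure ((fun z : Z => (z.1.1 : Y → ℝ)) '' closure AZ) := by
    rw [mem_closure_iff]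
    intro O hO h0
    obtain ⟨I, u, hu, hIu⟩ := isOpen_pi_iff.1 hO 0 h0
    choose τ hτ using hyt
    have hfin : {n : ℕ | ∀ t, n ∉ A t}.Finite := by
      by_contra hinf
      obtain ⟨t, ht⟩ := hA3 _ hinf
      obtain ⟨n, hn⟩ := ht.nonempty
      exact hn.1 t hn.2
    obtain ⟨n, hn1, hn2⟩ := ((hA2 (I.image τ)).sdiff hfin).nonempty
    simp only [mem_ofPred_eq, not_forall, not_not] at hn2
    obtain ⟨t, ht⟩ := hn2
    have hfZ : f n ∈ Z := ⟨yt t, by rw [hf]; simp [ht]⟩
    refine ⟨(f n).1, hIu ?_, ⟨⟨f n, hfZ⟩, subset_closure ⟨n, rfl⟩, rfl⟩⟩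
    intro y hy
    have h1 : (f n).1 y = 0 := by
      rw [hτ y, hf]
      have : n ∉ A (τ y) := by
        intro hcon
        apply hn1
        simp only [mem_iUnion]
        exact ⟨τ y, Finset.mem_image_of_mem _ hy, hcon⟩
      simp [this]
    rw [h1]
    exact (hu y hy).2
  rw [hclosed.closure_eq] at hzero
  obtain ⟨z, _, hz⟩ := hzero
  obtain ⟨y, hy⟩ := z.2
  exact hy (congrFun hz y)

end Cp


end Helper88.SuslinTree
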